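import Mathlib

set_option autoImplicit false

namespace Pool.Agent.CStarLift

open Unitary selfAdjoint NormedSpace

section

variable {A : Type*} [CStarAlgebra A]

/-- Murray–von Neumann equivalence (of projections) in a C*-algebra. -/
def MvN (p q : A) : Prop := ∃ v : A, star v * v = p ∧ v * star v = q

theorem MvN.symm {p q : A} (h : MvN p q) : MvN q p := by
  obtain ⟨v, h1, h2⟩ := h
  exact ⟨star v, by simpa using h2, by simpa using h1⟩

theorem mul_proj_of_star_mul_self {v p : A} (hp : IsStarProjection p) (h : star v * v = p) :
    v * p = v := by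
  have h0 : star (v * p - v) * (v * p - v) = 0 := by
    have hpp : p * p = p := hp.isIdempotentElem.eq
    have hps : star p = p := hp.isSelfAdjoint.star_eq
    calc star (v * p - v) * (v * p - v)
        = star p * (star v * v) * p - star p * (star v * v) - (star v * v) * p + star v * v := by
          simp only [star_sub, star_mul]; noncomm_ring
      _ = 0 := by rw [h, hps]; simp [hpp]
  have h1 : v * p - v = 0 := by
    rwa [CStarRing.star_mul_self_eq_zero_iff] at h0
  exact sub_eq_zero.mp h1

theorem proj_mul_of_mul_star_self {v q : A} (hq : IsStarProjection q) (h : v * star v = q) :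
    q * v = v := by
  have h' : star (star v) * star v = q := by simpa using h
  have := mul_proj_of_star_mul_self hq h'
  have h2 := congrArg star this
  simpa [hq.isSelfAdjoint.star_eq] using h2

theorem MvN.trans {p q r : A} (hq : IsStarProjection q)
    (h : MvN p q) (h' : MvN q r) : MvN p r := by
  obtain ⟨v, h1, h2⟩ := h
  obtain ⟨w, h3, h4⟩ := h'
  refine ⟨w * v, ?_, ?_⟩
  · calc star (w * v) * (w * v) = star v * ((star w * w) * v) := by
          simp only [star_mul]; noncomm_ring
      _ = star v * (q * v) := by rw [h3]
      _ = p := by rw [proj_mul_of_mul_star_self hq h2, h1]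
  · calc (w * v) * star (w * v) = (w * (v * star v)) * star w := by
          simp only [star_mul]; noncomm_ring
      _ = (w * q) * star w := by rw [h2]
      _ = r := by rw [mul_proj_of_star_mul_self hq h3, h4]

theorem MvN.refl {p : A} (hp : IsStarProjection p) : MvN p p :=
  ⟨p, by rw [hp.isSelfAdjoint.star_eq, hp.isIdempotentElem.eq],
    by rw [hp.isSelfAdjoint.star_eq, hp.isIdempotentElem.eq]⟩

/-- Projections at distance less than one are Murray–von Neumann equivalent. -/
theorem mvn_of_norm_sub_lt_one {p q : A} (hp : IsStarProjection p) (hq : IsStarProjection q)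
    (h : ‖q - p‖ < 1) : MvN p q := by
  -- the symmetries
  set s : unitary A := ⟨2 * p - 1, hp.two_mul_sub_one_mem_unitary⟩ with hs
  set t : unitary A := ⟨2 * q - 1, hq.two_mul_sub_one_mem_unitary⟩ with ht
  have hps : star p = p := hp.isSelfAdjoint.star_eq
  have hqs : star q = q := hq.isSelfAdjoint.star_eq
  have hss : star s = s := by
    ext; simp [hs, hps, two_mul]
  have hts : star t = t := by
    ext; simp [ht, hqs, two_mul]
  have hs2 : s * s = 1 := by
    have := Unitary.star_mul_self s
    rwa [hss] at this
  have ht2 : t * t = 1 := by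
    have := Unitary.star_mul_self t
    rwa [hts] at this
  set u : unitary A := t * s with hu
  have hustar : star u = s * t := by rw [hu, star_mul, hss, hts]
  have hnorm : ‖(u - 1 : A)‖ < 2 := by
    have e1 : (u - 1 : A) = ((t : A) - (s : A)) * (s : A) := by
      have : (s : A) * (s : A) = 1 := congrArg Subtype.val hs2
      rw [sub_mul, this]; rfl
    have e2 : (t : A) - (s : A) = (2 : ℝ) • (q - p) := by
      simp only [hs, ht, two_smul]; noncomm_ring
    rw [e1, CStarRing.norm_mul_coe_unitary, e2, norm_smul]
    simp only [Real.norm_ofNat]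
    linarith
  set a := argSelfAdjoint u with ha
  have hexpa : expUnitary a = u := expUnitary_argSelfAdjoint hnorm
  have hna : ‖a‖ < Real.pi := by
    have := (Unitary.openPartialHomeomorph (A := A)).map_source
      (x := u) (by simpa [Subtype.dist_eq, dist_eq_norm] using hnorm)
    have h2 : argSelfAdjoint u ∈ Metric.ball (0 : selfAdjoint A) Real.pi := this
    rwa [mem_ball_zero_iff] at h2
  -- conjugate of `a` by the symmetry `s`
  set b : selfAdjoint A := ⟨(s : A) * (a : A) * (s : A), by
    rw [selfAdjoint.mem_iff, star_mul, star_mul]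
    have h1 : star (s : A) = (s : A) := by exact_mod_cast congrArg Subtype.val hss
    rw [h1, a.2.star_eq, mul_assoc]⟩ with hb
  have conj_exp : ∀ x : selfAdjoint A, ∀ y : selfAdjoint A,
      (y : A) = (s : A) * (x : A) * (s : A) → expUnitary y = s * expUnitary x * s := by
    intro x y hxy
    ext
    have hinv : (s : A) * (s : A) = 1 := congrArg Subtype.val hs2
    let +nondep : NormedAlgebra ℚ A := .restrictScalars ℚ ℂ A
    let U : Aˣ := ⟨s, s, hinv, hinv⟩
    have := NormedSpace.exp_units_conj (𝔸 := A) U (Complex.I • (x : A))
    simp only [expUnitary_coe, Submonoid.coe_mul]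
    rw [hxy]
    have e : Complex.I • ((s : A) * (x : A) * (s : A)) = (U : A) * (Complex.I • (x : A)) * (↑U⁻¹ : A) := by
      simp [U, mul_assoc]
    rw [e, this]
    rfl
  have hexpb : expUnitary b = star u := by
    rw [conj_exp a b rfl, hexpa, hustar, hu]
    calc s * (t * s) * s = s * t * (s * s) := by simp [mul_assoc]
      _ = s * t := by rw [hs2, mul_one]
  have hexpneg : ∀ x : selfAdjoint A, expUnitary (-x) = star (expUnitary x) := by
    intro x
    have hc : Commute (x : A) ((-x : selfAdjoint A) : A) := by
      simp
    have h1 := hc.expUnitary_add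
    rw [add_neg_cancel, expUnitary_zero] at h1
    have h2 : star (expUnitary x) * (expUnitary x * expUnitary (-x)) = star (expUnitary x) := by
      rw [← h1, mul_one]
    rwa [← mul_assoc, Unitary.star_mul_self, one_mul] at h2
  have hnb : ‖b‖ < Real.pi := by
    refine lt_of_le_of_lt ?_ hna
    have : ‖(b : A)‖ ≤ ‖(a : A)‖ := by
      simp [hb]
    exact this
  have hba : b = -a := by
    have h1 : argSelfAdjoint (expUnitary b) = b := argSelfAdjoint_expUnitary hnb
    have h2 : argSelfAdjoint (expUnitary (-a)) = -a := argSelfAdjoint_expUnitary (by rwa [norm_neg])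
    rw [hexpneg, hexpa] at h2
    rw [hexpb] at h1
    rw [← h1, h2]
  set W := expUnitary ((1 / 2 : ℝ) • a) with hW
  have hWW : W * W = u := by
    have hc : Commute (((1 / 2 : ℝ) • a : selfAdjoint A) : A) (((1 / 2 : ℝ) • a : selfAdjoint A) : A) :=
      Commute.refl _
    rw [hW, ← hc.expUnitary_add, ← add_smul]
    norm_num [hexpa]
  have hsWs : s * W * s = star W := by
    have e : ((-((1 / 2 : ℝ) • a) : selfAdjoint A) : A) = (s : A) * (((1 / 2 : ℝ) • a : selfAdjoint A) : A) * (s : A) := by
      have h3 : (b : A) = -(a : A) := by rw [hba]; rfl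
      have h4 : (s : A) * (((1 / 2 : ℝ) • a : selfAdjoint A) : A) * (s : A) = (1 / 2 : ℝ) • (b : A) := by
        simp [hb]
      rw [h4, h3]
      simp
    rw [hW, ← hexpneg, conj_exp _ _ e]
  have hconj : W * s * star W = t := by
    have h5 : s * star W = W * s := by
      rw [← hsWs]
      calc s * (s * W * s) = (s * s) * W * s := by simp [mul_assoc]
        _ = W * s := by rw [hs2, one_mul]
    rw [mul_assoc, h5, ← mul_assoc, hWW, hu, mul_assoc, hs2, mul_one]
  have hconj' : (W : A) * p * star (W : A) = q := by
    have h6 : (W : A) * (2 * p - 1) * star (W : A) = 2 * q - 1 := congrArg Subtype.val hconj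
    have h7 : (W : A) * star (W : A) = 1 := Unitary.coe_mul_star_self W
    have h8 : (W : A) * (2 * p - 1) * star (W : A) = 2 * ((W : A) * p * star (W : A)) - 1 := by
      rw [mul_sub, sub_mul, mul_one, h7]; noncomm_ring
    rw [h8] at h6
    have h9 : (2 : ℝ) • ((W : A) * p * star (W : A)) = (2 : ℝ) • q := by
      rw [two_smul, two_smul]
      have := sub_left_injective h6
      simpa [two_mul] using this
    exact smul_right_injective A (two_ne_zero) h9
  refine ⟨(W : A) * p, ?_, ?_⟩
  · rw [star_mul, hps]
    calc p * star (W : A) * ((W : A) * p) = p * (star (W : A) * (W : A)) * p := by noncomm_ring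
      _ = p := by rw [Unitary.coe_star_mul_self, mul_one, hp.isIdempotentElem.eq]
  · rw [star_mul, hps]
    calc (W : A) * p * (p * star (W : A)) = (W : A) * (p * p) * star (W : A) := by noncomm_ring
      _ = q := by rw [hp.isIdempotentElem.eq, hconj']

end

end Pool.Agent.CStarLift
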