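import Mathlib
import Pool.Agent.CStarLift.Proj

set_option autoImplicit false

namespace Pool.Agent.CStarLift

open unitInterval

section

variable {A : Type*} [CStarAlgebra A]

theorem mvn_of_homotopy {X : Type*} [TopologicalSpace X] [PreconnectedSpace X] (P : C(X, A))
    (hP : ∀ t, IsStarProjection (P t)) (s t : X) : MvN (P s) (P t) := by
  haveI : Std.Symm (fun x y : X => MvN (P x) (P y)) := ⟨fun x y h => h.symm⟩
  refine PreconnectedSpace.induction₂ (fun x y : X => MvN (P x) (P y)) ?_ ?_ s t
  · intro x
    have hc : Filter.Tendsto P (nhds x) (nhds (P x)) := P.continuous.tendsto x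
    have := hc (Metric.ball_mem_nhds (P x) one_pos)
    filter_upwards [this] with y hy
    have hy' : ‖P y - P x‖ < 1 := by
      simpa [dist_eq_norm] using hy
    exact mvn_of_norm_sub_lt_one (hP x) (hP y) hy'
  · exact ⟨fun x y z hxy hyz => MvN.trans (hP y) hxy hyz⟩

/-- A path of projections is Murray–von Neumann equivalent, in the path algebra,
to the constant path at its starting point. -/
theorem mvn_const_path (P : C(I, A)) (hP : ∀ t, IsStarProjection (P t)) :
    MvN (A := C(I, A)) (ContinuousMap.const I (P 0)) P := by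
  -- the homotopy
  let m : C(I × I, I) := ⟨fun x => x.1 * x.2, by fun_prop⟩
  let G : C(I, C(I, A)) := (P.comp m).curry
  have hG : ∀ s, IsStarProjection (G s) := by
    intro s
    refine ⟨?_, ?_⟩
    · ext t
      exact (hP (s * t)).isIdempotentElem.eq
    · ext t
      exact (hP (s * t)).isSelfAdjoint.star_eq
  have h := mvn_of_homotopy G hG 0 1
  have h0 : G 0 = ContinuousMap.const I (P 0) := by
    ext t
    simp [G, m]
  have h1 : G 1 = P := by
    ext t
    simp [G, m]
  rwa [h0, h1] at h

/-- The corner unitary group at `p` is path connected. -/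
def CornerConn (p : A) : Prop :=
  ∀ u : A, star u * u = p → u * star u = p →
    ∃ c : C(I, A), (∀ t, star (c t) * c t = p) ∧ (∀ t, c t * star (c t) = p) ∧ c 0 = p ∧ c 1 = u

theorem exists_path_partialIsometry (P Q : C(I, A)) (hP : ∀ t, IsStarProjection (P t))
    (hQ : ∀ t, IsStarProjection (Q t)) (hc : CornerConn (P 0)) (w0 w1 : A)
    (h01 : star w0 * w0 = P 0) (h02 : w0 * star w0 = Q 0)
    (h11 : star w1 * w1 = P 1) (h12 : w1 * star w1 = Q 1) :
    ∃ w : C(I, A), (∀ t, star (w t) * w t = P t) ∧ (∀ t, w t * star (w t) = Q t) ∧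
      w 0 = w0 ∧ w 1 = w1 := by
  obtain ⟨x, hx1, hx2⟩ := mvn_const_path P hP
  obtain ⟨y, hy1, hy2⟩ := mvn_const_path Q hQ
  have hx1' : ∀ t, star (x t) * x t = P 0 := fun t => by
    simpa using congrArg (fun f : C(I, A) => f t) hx1
  have hx2' : ∀ t, x t * star (x t) = P t := fun t => by
    simpa using congrArg (fun f : C(I, A) => f t) hx2
  have hy1' : ∀ t, star (y t) * y t = Q 0 := fun t => by
    simpa using congrArg (fun f : C(I, A) => f t) hy1
  have hy2' : ∀ t, y t * star (y t) = Q t := fun t => by
    simpa using congrArg (fun f : C(I, A) => f t) hy2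
  -- the constant partial isometry from `P 0` to `Q 0`
  set a : A := star (y 0) * w0 * x 0 with ha
  have hx0P : ∀ t, x t * P 0 = x t := fun t => mul_proj_of_star_mul_self (hP 0) (hx1' t)
  have hPx : ∀ t, P t * x t = x t := fun t => proj_mul_of_mul_star_self (hP t) (hx2' t)
  have hy0Q : ∀ t, y t * Q 0 = y t := fun t => mul_proj_of_star_mul_self (hQ 0) (hy1' t)
  have hQy : ∀ t, Q t * y t = y t := fun t => proj_mul_of_mul_star_self (hQ t) (hy2' t)
  have hQy' : ∀ t, star (y t) * Q t = star (y t) := fun t => by
    have := congrArg star (hQy t)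
    simpa [(hQ t).isSelfAdjoint.star_eq] using this
  have hPx' : ∀ t, star (x t) * P t = star (x t) := fun t => by
    have := congrArg star (hPx t)
    simpa [(hP t).isSelfAdjoint.star_eq] using this
  have hx0P' : ∀ t, P 0 * star (x t) = star (x t) := fun t => by
    have := congrArg star (hx0P t)
    simpa [(hP 0).isSelfAdjoint.star_eq] using this
  have hy0Q' : ∀ t, Q 0 * star (y t) = star (y t) := fun t => by
    have := congrArg star (hy0Q t)
    simpa [(hQ 0).isSelfAdjoint.star_eq] using this
  have hw0P : w0 * P 0 = w0 := mul_proj_of_star_mul_self (hP 0) h01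
  have hQw0 : Q 0 * w0 = w0 := proj_mul_of_mul_star_self (hQ 0) h02
  have hw1P : w1 * P 1 = w1 := mul_proj_of_star_mul_self (hP 1) h11
  have hQw1 : Q 1 * w1 = w1 := proj_mul_of_mul_star_self (hQ 1) h12
  have ha1 : star a * a = P 0 := by
    calc star a * a = star (x 0) * (star w0 * ((y 0 * star (y 0)) * w0)) * x 0 := by
          rw [ha]; simp only [star_mul, star_star]; noncomm_ring
      _ = P 0 := by rw [hy2' 0, hQw0, h01, hPx' 0, hx1' 0]
  have ha2 : a * star a = Q 0 := by
    calc a * star a = star (y 0) * (w0 * (x 0 * star (x 0)) * star w0) * y 0 := by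
          rw [ha]; simp only [star_mul, star_star]; noncomm_ring
      _ = Q 0 := by rw [hx2' 0, hw0P, h02, hQy' 0, hy1' 0]
  have haP : a * P 0 = a := mul_proj_of_star_mul_self (hP 0) ha1
  have hQa : Q 0 * a = a := proj_mul_of_mul_star_self (hQ 0) ha2
  -- the corner unitary
  set u : A := star a * star (y 1) * w1 * x 1 with hu
  have hu1 : star u * u = P 0 := by
    calc star u * u = star (x 1) * (star w1 * (y 1 * (a * star a) * star (y 1)) * w1) * x 1 := by
          rw [hu]; simp only [star_mul, star_star]; noncomm_ring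
      _ = P 0 := by
        rw [ha2, hy0Q 1, hy2' 1, mul_assoc (star w1), hQw1, h11, hPx' 1, hx1' 1]
  have hu2 : u * star u = P 0 := by
    calc u * star u = star a * (star (y 1) * (w1 * (x 1 * star (x 1)) * star w1) * y 1) * a := by
          rw [hu]; simp only [star_mul, star_star]; noncomm_ring
      _ = P 0 := by
        rw [hx2' 1, hw1P, h12, hQy' 1, hy1' 1, mul_assoc, hQa, ha1]
  obtain ⟨c, hc1, hc2, hc0, hc1'⟩ := hc u hu1 hu2
  have hPc : ∀ t, P 0 * c t = c t := fun t => proj_mul_of_mul_star_self (hP 0) (hc2 t)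
  have hcP : ∀ t, c t * P 0 = c t := fun t => mul_proj_of_star_mul_self (hP 0) (hc1 t)
  refine ⟨y * (ContinuousMap.const I a) * c * star x, ?_, ?_, ?_, ?_⟩
  · intro t
    simp only [ContinuousMap.mul_apply, ContinuousMap.const_apply, ContinuousMap.star_apply]
    calc star (y t * a * c t * star (x t)) * (y t * a * c t * star (x t))
        = x t * (star (c t) * ((star a * ((star (y t) * y t) * a)) * c t)) * star (x t) := by
          simp only [star_mul, star_star]; noncomm_ring
      _ = P t := by rw [hy1' t, hQa, ha1, hPc t, hc1 t, hx0P t, hx2' t]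
  · intro t
    simp only [ContinuousMap.mul_apply, ContinuousMap.const_apply, ContinuousMap.star_apply]
    calc (y t * a * c t * star (x t)) * star (y t * a * c t * star (x t))
        = y t * (a * (c t * (star (x t) * x t) * star (c t)) * star a) * star (y t) := by
          simp only [star_mul, star_star]; noncomm_ring
      _ = Q t := by rw [hx1' t, hcP t, hc2 t, haP, ha2, hy0Q t, hy2' t]
  · simp only [ContinuousMap.mul_apply, ContinuousMap.const_apply, ContinuousMap.star_apply, hc0]
    calc y 0 * a * P 0 * star (x 0) = (y 0 * star (y 0)) * w0 * (x 0 * (P 0 * star (x 0))) := by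
          rw [ha]; noncomm_ring
      _ = w0 := by rw [hx0P' 0, hy2' 0, hx2' 0, hQw0, hw0P]
  · simp only [ContinuousMap.mul_apply, ContinuousMap.const_apply, ContinuousMap.star_apply, hc1']
    calc y 1 * a * u * star (x 1)
        = y 1 * (a * star a) * star (y 1) * w1 * (x 1 * star (x 1)) := by
          rw [hu]; noncomm_ring
      _ = w1 := by rw [ha2, hy0Q 1, hy2' 1, hx2' 1, hQw1, hw1P]

end

end Pool.Agent.CStarLift
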