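import Mathlib
import Pool.Agent.CStarLift.PathLift

set_option autoImplicit false

namespace Pool.Agent.CStarLift

open unitInterval Module

section

variable {H : Type*} [NormedAddCommGroup H] [InnerProductSpace ℂ H] [CompleteSpace H]

/-- the range of an operator has finite dimension -/
def FinRank (P : H →L[ℂ] H) : Prop := FiniteDimensional ℂ (LinearMap.range (P : H →ₗ[ℂ] H))

/-- the rank of an operator -/
noncomputable def rk (P : H →L[ℂ] H) : ℕ := finrank ℂ (LinearMap.range (P : H →ₗ[ℂ] H))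

theorem FinRank.mul_left {P : H →L[ℂ] H} (h : FinRank P) (T : H →L[ℂ] H) : FinRank (T * P) := by
  unfold FinRank at *
  have : LinearMap.range ((T * P : H →L[ℂ] H) : H →ₗ[ℂ] H) =
      (LinearMap.range (P : H →ₗ[ℂ] H)).map (T : H →ₗ[ℂ] H) := by
    rw [← LinearMap.range_comp]; rfl
  rw [this]
  infer_instance

theorem rk_mul_left_le {P : H →L[ℂ] H} (h : FinRank P) (T : H →L[ℂ] H) : rk (T * P) ≤ rk P := by
  unfold FinRank at h
  have : LinearMap.range ((T * P : H →L[ℂ] H) : H →ₗ[ℂ] H) =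
      (LinearMap.range (P : H →ₗ[ℂ] H)).map (T : H →ₗ[ℂ] H) := by
    rw [← LinearMap.range_comp]; rfl
  unfold rk
  rw [this]
  exact Submodule.finrank_map_le _ _

theorem FinRank.mul_right {P : H →L[ℂ] H} (h : FinRank P) (T : H →L[ℂ] H) : FinRank (P * T) := by
  unfold FinRank at *
  have : LinearMap.range ((P * T : H →L[ℂ] H) : H →ₗ[ℂ] H) ≤
      (LinearMap.range (P : H →ₗ[ℂ] H)) := by
    rintro _ ⟨x, rfl⟩
    exact ⟨T x, rfl⟩
  exact Submodule.finiteDimensional_of_le this

theorem rk_mul_right_le {P : H →L[ℂ] H} (h : FinRank P) (T : H →L[ℂ] H) : rk (P * T) ≤ rk P := by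
  unfold FinRank at h
  have : LinearMap.range ((P * T : H →L[ℂ] H) : H →ₗ[ℂ] H) ≤
      (LinearMap.range (P : H →ₗ[ℂ] H)) := by
    rintro _ ⟨x, rfl⟩
    exact ⟨T x, rfl⟩
  exact Submodule.finrank_mono this

theorem FinRank.add {P Q : H →L[ℂ] H} (h : FinRank P) (h' : FinRank Q) : FinRank (P + Q) := by
  unfold FinRank at *
  have : LinearMap.range ((P + Q : H →L[ℂ] H) : H →ₗ[ℂ] H) ≤
      (LinearMap.range (P : H →ₗ[ℂ] H)) ⊔ (LinearMap.range (Q : H →ₗ[ℂ] H)) := by
    rintro _ ⟨x, rfl⟩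
    exact Submodule.add_mem_sup ⟨x, rfl⟩ ⟨x, rfl⟩
  exact Submodule.finiteDimensional_of_le this

theorem MvN.finRank {P Q : H →L[ℂ] H} (h : MvN P Q) (hP : IsStarProjection P) (hf : FinRank P) :
    FinRank Q := by
  obtain ⟨v, h1, h2⟩ := h
  have hv : v * P = v := mul_proj_of_star_mul_self hP h1
  rw [← h2, ← hv, mul_assoc]
  exact (hf.mul_right _).mul_left _

theorem MvN.rk_eq {P Q : H →L[ℂ] H} (h : MvN P Q) (hP : IsStarProjection P)
    (hQ : IsStarProjection Q) (hf : FinRank P) : rk P = rk Q := by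
  have key : ∀ {P Q : H →L[ℂ] H}, MvN P Q → IsStarProjection P → FinRank P → rk Q ≤ rk P := by
    intro P Q h hP hf
    obtain ⟨v, h1, h2⟩ := h
    have hv : v * P = v := mul_proj_of_star_mul_self hP h1
    rw [← h2, ← hv, mul_assoc]
    exact (rk_mul_left_le (hf.mul_right _) _).trans (rk_mul_right_le hf _)
  exact le_antisymm (key h.symm hQ (h.finRank hP hf)) (key h hP hf)

theorem mvn_of_rk_eq {P Q : H →L[ℂ] H} (hP : IsStarProjection P) (hQ : IsStarProjection Q)
    (hfP : FinRank P) (hfQ : FinRank Q) (h : rk P = rk Q) : MvN P Q := by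
  obtain ⟨i1, e1⟩ := isStarProjection_iff_eq_starProjection_range.mp hP
  obtain ⟨i2, e2⟩ := isStarProjection_iff_eq_starProjection_range.mp hQ
  set V := P.range with hV
  set W := Q.range with hW
  haveI : FiniteDimensional ℂ V := hfP
  haveI : FiniteDimensional ℂ W := hfQ
  have hfr : finrank ℂ V = finrank ℂ W := h
  let bV := stdOrthonormalBasis ℂ V
  let bW := (stdOrthonormalBasis ℂ W).reindex (finCongr hfr.symm)
  let e : V ≃ₗᵢ[ℂ] W := bV.equiv bW (Equiv.refl _)
  let v : H →L[ℂ] H := W.subtypeL ∘L (e.toContinuousLinearEquiv : V →L[ℂ] W) ∘L V.orthogonalProjectionOnto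
  have hadj : star v = V.subtypeL ∘L (e.symm.toContinuousLinearEquiv : W →L[ℂ] V) ∘L W.orthogonalProjectionOnto := by
    rw [ContinuousLinearMap.star_eq_adjoint]
    symm
    rw [ContinuousLinearMap.eq_adjoint_iff]
    intro x y
    simp only [v, ContinuousLinearMap.comp_apply, Submodule.subtypeL_apply]
    have a1 : inner ℂ (((e.symm.toContinuousLinearEquiv : W →L[ℂ] V) (W.orthogonalProjectionOnto x) : V) : H) y
        = inner ℂ ((e.symm.toContinuousLinearEquiv : W →L[ℂ] V) (W.orthogonalProjectionOnto x)) (V.orthogonalProjectionOnto y) := by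
      rw [Submodule.inner_orthogonalProjectionOnto_eq_of_mem_left]
    have a2 : inner ℂ x (((e.toContinuousLinearEquiv : V →L[ℂ] W) (V.orthogonalProjectionOnto y) : W) : H)
        = inner ℂ (W.orthogonalProjectionOnto x) ((e.toContinuousLinearEquiv : V →L[ℂ] W) (V.orthogonalProjectionOnto y)) := by
      rw [Submodule.inner_orthogonalProjectionOnto_eq_of_mem_right]
    rw [a1, a2]
    have := e.inner_map_map (e.symm (W.orthogonalProjectionOnto x)) (V.orthogonalProjectionOnto y)
    rw [LinearIsometryEquiv.apply_symm_apply] at this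
    exact this.symm
  refine ⟨v, ?_, ?_⟩
  · rw [hadj, e1]
    ext x
    simp only [v, mul_apply_eq_comp, ContinuousLinearMap.comp_apply, Submodule.subtypeL_apply]
    rw [Submodule.orthogonalProjectionOnto_mem_subspace_eq_self]
    simp
    rfl
  · rw [hadj, e2]
    ext x
    simp only [v, mul_apply_eq_comp, ContinuousLinearMap.comp_apply, Submodule.subtypeL_apply]
    rw [Submodule.orthogonalProjectionOnto_mem_subspace_eq_self]
    simp
    rfl

theorem rk_add {P Q : H →L[ℂ] H} (hP : IsStarProjection P) (hQ : IsStarProjection Q)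
    (hfP : FinRank P) (hfQ : FinRank Q) (h : P * Q = 0) : rk (P + Q) = rk P + rk Q := by
  unfold FinRank at hfP hfQ
  have hQP : Q * P = 0 := by
    have := congrArg star h
    simpa [hP.isSelfAdjoint.star_eq, hQ.isSelfAdjoint.star_eq] using this
  have hPP : P * P = P := hP.isIdempotentElem.eq
  have hQQ : Q * Q = Q := hQ.isIdempotentElem.eq
  have e1 : ∀ x, P (Q x) = 0 := fun x => by
    have := congrArg (fun T : H →L[ℂ] H => T x) h; simpa using this
  have e2 : ∀ x, Q (P x) = 0 := fun x => by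
    have := congrArg (fun T : H →L[ℂ] H => T x) hQP; simpa using this
  have e3 : ∀ x, P (P x) = P x := fun x => by
    have := congrArg (fun T : H →L[ℂ] H => T x) hPP; simpa using this
  have e4 : ∀ x, Q (Q x) = Q x := fun x => by
    have := congrArg (fun T : H →L[ℂ] H => T x) hQQ; simpa using this
  have hsup : LinearMap.range ((P + Q : H →L[ℂ] H) : H →ₗ[ℂ] H) =
      (LinearMap.range (P : H →ₗ[ℂ] H)) ⊔ (LinearMap.range (Q : H →ₗ[ℂ] H)) := by
    apply le_antisymm
    · rintro _ ⟨x, rfl⟩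
      exact Submodule.add_mem_sup ⟨x, rfl⟩ ⟨x, rfl⟩
    · rw [sup_le_iff]
      constructor
      · rintro _ ⟨x, rfl⟩
        refine ⟨P x, ?_⟩
        simp [e2, e3]
      · rintro _ ⟨x, rfl⟩
        refine ⟨Q x, ?_⟩
        simp [e1, e4]
  have hdis : (LinearMap.range (P : H →ₗ[ℂ] H)) ⊓ (LinearMap.range (Q : H →ₗ[ℂ] H)) = ⊥ := by
    rw [eq_bot_iff]
    rintro _ ⟨⟨x, rfl⟩, ⟨y, hy⟩⟩
    have h1 : Q y = P x := hy
    have h2 : P x = 0 := by
      rw [← e3, ← h1, e1]
    simpa using h2
  have := Submodule.finrank_sup_add_finrank_inf_eq (LinearMap.range (P : H →ₗ[ℂ] H)) (LinearMap.range (Q : H →ₗ[ℂ] H))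
  rw [hdis, finrank_bot, add_zero] at this
  unfold rk
  rw [hsup, this]

end

end Pool.Agent.CStarLift
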