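import Mathlib
import Pool.Agent.CStarLift.Rank

set_option autoImplicit false

namespace Pool.Agent.CStarLift

open unitInterval Module

section

variable {H : Type*} [NormedAddCommGroup H] [InnerProductSpace ℂ H] [CompleteSpace H]

theorem FinRank.isCompactOperator {T : H →L[ℂ] H} (h : FinRank T) : IsCompactOperator T := by
  unfold FinRank at h
  let V := LinearMap.range (T : H →ₗ[ℂ] H)
  let T' : H →L[ℂ] V := T.codRestrict V (fun x => ⟨x, rfl⟩)
  have hloc : LocallyCompactSpace V := .of_finiteDimensional_of_complete ℂ V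
  have h1 : IsCompactOperator T' := isCompactOperator_of_locallyCompactSpace_dom T'
  exact h1.clm_comp V.subtypeL

theorem finite_spectrum_of_finRank {T : H →L[ℂ] H} (h : FinRank T) : (spectrum ℂ T).Finite := by
  have hc := h.isCompactOperator
  unfold FinRank at h
  set V := LinearMap.range (T : H →ₗ[ℂ] H) with hV
  let T' : Module.End ℂ V := (T : H →ₗ[ℂ] H).restrict (fun x _ => ⟨x, rfl⟩)
  have hfin := Module.End.finite_hasEigenvalue T'
  refine (hfin.union (Set.finite_singleton 0)).subset ?_
  intro μ hμ
  by_cases h0 : μ = 0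
  · right; simpa using h0
  · left
    have := (IsCompactOperator.hasEigenvalue_iff_mem_spectrum hc h0).mpr hμ
    obtain ⟨x, hx⟩ := this.exists_hasEigenvector
    have hx1 : T x = μ • x := hx.apply_eq_smul
    have hx2 : x ≠ 0 := hx.2
    have hxV : x ∈ V := by
      refine ⟨μ⁻¹ • x, ?_⟩
      simp [hx1, smul_smul, inv_mul_cancel₀ h0]
    show T'.HasEigenvalue μ
    apply Module.End.hasEigenvalue_of_hasEigenvector (x := ⟨x, hxV⟩)
    refine ⟨?_, ?_⟩
    · rw [Module.End.mem_eigenspace_iff]
      exact Subtype.ext hx1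
    · intro h
      exact hx2 (congrArg Subtype.val h)

open scoped Pointwise in
/-- some rotation of a unitary with finite spectrum stays away from `-1` -/
theorem exists_rotation {A : Type*} [CStarAlgebra A] (u : A) (hfin : (spectrum ℂ u).Finite) :
    ∃ θ : ℝ, (-1 : ℂ) ∉ spectrum ℂ (Complex.exp (Complex.I * θ) • u) := by
  by_contra hcon
  push Not at hcon
  -- then `-exp(-iθ)` lies in the spectrum for all θ
  have h1 : ∀ θ : ℝ, -Complex.exp (-(Complex.I * θ)) ∈ spectrum ℂ u := by
    intro θ
    have h2 := hcon θ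
    have hne : Complex.exp (Complex.I * θ) ≠ 0 := Complex.exp_ne_zero _
    let r : ℂˣ := Units.mk0 _ hne
    have h3 : spectrum ℂ (r • u) = r • spectrum ℂ u := spectrum.unit_smul_eq_smul u r
    have h4 : (-1 : ℂ) ∈ r • spectrum ℂ u := by
      rw [← h3]; exact h2
    obtain ⟨z, hz, hz2⟩ := h4
    have h5 : Complex.exp (Complex.I * θ) * z = -1 := hz2
    have h6 : z = -Complex.exp (-(Complex.I * θ)) := by
      rw [Complex.exp_neg]
      field_simp
      rw [mul_comm]; exact h5
    rwa [← h6]
  have hinj : Function.Injective (fun n : ℕ => -Complex.exp (-(Complex.I * ((1 / (n + 1 : ℝ) : ℝ) : ℂ)))) := by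
    intro n m hnm
    simp only [neg_inj] at hnm
    have e1 : ∀ x : ℝ, Complex.exp (-(Complex.I * (x : ℂ))) = Complex.exp (((-x : ℝ) : ℂ) * Complex.I) := by
      intro x; congr 1; push_cast; ring
    rw [e1, e1, ← Circle.coe_exp, ← Circle.coe_exp] at hnm
    have h7 : Circle.exp (-(1 / (n + 1 : ℝ))) = Circle.exp (-(1 / (m + 1 : ℝ))) :=
      Subtype.ext hnm
    have hb : ∀ k : ℕ, (1 / (k + 1 : ℝ)) ≤ 1 ∧ 0 < (1 / (k + 1 : ℝ)) := by
      intro k
      constructor
      · rw [div_le_one (by positivity)]; linarith [Nat.cast_nonneg (α := ℝ) k]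
      · positivity
    have hpi := Real.pi_gt_three
    have h9 : Complex.arg (Circle.exp (-(1 / (n + 1 : ℝ)))) = -(1 / (n + 1 : ℝ)) :=
      Circle.arg_exp (by linarith [(hb n).1]) (by linarith [(hb n).2])
    have h10 : Complex.arg (Circle.exp (-(1 / (m + 1 : ℝ)))) = -(1 / (m + 1 : ℝ)) :=
      Circle.arg_exp (by linarith [(hb m).1]) (by linarith [(hb m).2])
    rw [h7, h10] at h9
    have h11 : (1 / (m + 1 : ℝ)) = 1 / (n + 1 : ℝ) := by linarith
    have h12 : (m + 1 : ℝ) = n + 1 := by
      have := one_div_one_div (m + 1 : ℝ)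
      rw [h11] at this
      rw [← this, one_div_one_div]
    exact_mod_cast (by linarith : (n : ℝ) = m)
  exact (Set.infinite_range_of_injective hinj) (hfin.subset (by rintro _ ⟨n, rfl⟩; exact h1 _))

open Unitary selfAdjoint NormedSpace in
theorem cornerConn_of_finRank {P : H →L[ℂ] H} (hP : IsStarProjection P) (hf : FinRank P) :
    CornerConn P := by
  intro u hu1 hu2
  have hPP : P * P = P := hP.isIdempotentElem.eq
  have hPs : star P = P := hP.isSelfAdjoint.star_eq
  have huP : u * P = u := mul_proj_of_star_mul_self hP hu1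
  have hPu : P * u = u := proj_mul_of_mul_star_self hP hu2
  have hPu' : P * star u = star u := by
    have := congrArg star huP; simpa [hPs] using this
  have huP' : star u * P = star u := by
    have := congrArg star hPu; simpa [hPs] using this
  -- unitary extension
  set w : H →L[ℂ] H := u + (1 - P) with hw
  have hw1 : star w * w = 1 := by
    rw [hw]
    simp only [star_add, star_sub, star_one, hPs]
    have : (star u + (1 - P)) * (u + (1 - P)) = star u * u + (star u - star u * P) + (u - P * u) + (1 - P - P + P * P) := by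
      noncomm_ring
    rw [this, hu1, huP', hPu, hPP]
    abel
  have hw2 : w * star w = 1 := by
    rw [hw]
    simp only [star_add, star_sub, star_one, hPs]
    have : (u + (1 - P)) * (star u + (1 - P)) = u * star u + (u - u * P) + (star u - P * star u) + (1 - P - P + P * P) := by
      noncomm_ring
    rw [this, hu2, huP, hPu', hPP]
    abel
  have hfinu : FinRank (u - P) := by
    have : u - P = P * (u - 1) := by rw [mul_sub, hPu, mul_one]
    rw [this]
    exact hf.mul_right _
  have hfin : (spectrum ℂ w).Finite := by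
    have e : w = algebraMap ℂ (H →L[ℂ] H) 1 + (u - P) := by
      rw [hw, map_one]; abel
    rw [e, ← spectrum.singleton_add_eq]
    exact (Set.finite_singleton _).add (finite_spectrum_of_finRank hfinu)
  obtain ⟨θ, hθ⟩ := exists_rotation w hfin
  have hes : star (Complex.exp (Complex.I * θ)) * Complex.exp (Complex.I * θ) = 1 := by
    have : star (Complex.exp (Complex.I * θ)) = Complex.exp (-(Complex.I * θ)) := by
      rw [Complex.star_def, ← Complex.exp_conj]
      simp
    rw [this, ← Complex.exp_add]
    simp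
  have hv : Complex.exp (Complex.I * θ) • w ∈ unitary (H →L[ℂ] H) := by
    rw [Unitary.mem_iff]
    constructor
    · rw [star_smul, smul_mul_smul_comm, hes, hw1, one_smul]
    · rw [star_smul, smul_mul_smul_comm, mul_comm, hes, hw2, one_smul]
  set v : unitary (H →L[ℂ] H) := ⟨_, hv⟩ with hvdef
  have hnorm : ‖(v - 1 : H →L[ℂ] H)‖ < 2 := (Unitary.norm_sub_one_lt_two_iff v.2).mpr hθ
  set a := argSelfAdjoint v with ha
  have hexpa : expUnitary a = v := expUnitary_argSelfAdjoint hnorm
  -- `a` commutes with `P`
  have hwP : Commute w P := by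
    rw [Commute, SemiconjBy, hw, add_mul, mul_add, huP, hPu, sub_mul, mul_sub, hPP]; simp
  have hwP' : Commute (star w) P := by
    have := hwP.star_star
    rwa [hPs] at this
  have haP : Commute (a : H →L[ℂ] H) P := by
    rw [ha, argSelfAdjoint_coe]
    refine Commute.cfc ?_ ?_ _
    · exact hwP.smul_left _
    · show Commute (star (Complex.exp (Complex.I * θ) • w)) P
      rw [star_smul]
      exact hwP'.smul_left _
  let U : C(I, H →L[ℂ] H) := ⟨fun t => ((expUnitary ((t : ℝ) • a) : unitary (H →L[ℂ] H)) : H →L[ℂ] H),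
    continuous_subtype_val.comp (selfAdjoint.expUnitaryPathToOne a).continuous⟩
  let c : C(I, H →L[ℂ] H) := ⟨fun t => Complex.exp (-(Complex.I * ((t : ℝ) * θ))) • (U t * P), by
    fun_prop⟩
  have hUP : ∀ t, Commute (U t) P := by
    intro t
    show Commute (((expUnitary ((t : ℝ) • a) : unitary (H →L[ℂ] H)) : H →L[ℂ] H)) P
    rw [expUnitary_coe]
    apply Commute.exp_left
    refine Commute.smul_left ?_ _
    exact haP.smul_left _
  have hUU : ∀ t, star (U t) * U t = 1 := fun t => Unitary.coe_star_mul_self _
  have hUU' : ∀ t, U t * star (U t) = 1 := fun t => Unitary.coe_mul_star_self _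
  have hsc : ∀ t : I, star (Complex.exp (-(Complex.I * ((t : ℝ) * θ)))) * Complex.exp (-(Complex.I * ((t : ℝ) * θ))) = 1 := by
    intro t
    have : star (Complex.exp (-(Complex.I * ((t : ℝ) * θ)))) = Complex.exp (Complex.I * ((t : ℝ) * θ)) := by
      rw [Complex.star_def, ← Complex.exp_conj]
      simp
    rw [this, ← Complex.exp_add]
    simp
  refine ⟨c, ?_, ?_, ?_, ?_⟩
  · intro t
    show star (Complex.exp (-(Complex.I * ((t : ℝ) * θ))) • (U t * P)) * (Complex.exp (-(Complex.I * ((t : ℝ) * θ))) • (U t * P)) = P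
    rw [star_smul, smul_mul_smul_comm, hsc, one_smul, star_mul, hPs]
    calc P * star (U t) * (U t * P) = P * (star (U t) * U t) * P := by noncomm_ring
      _ = P := by rw [hUU, mul_one, hPP]
  · intro t
    show (Complex.exp (-(Complex.I * ((t : ℝ) * θ))) • (U t * P)) * star (Complex.exp (-(Complex.I * ((t : ℝ) * θ))) • (U t * P)) = P
    rw [star_smul, smul_mul_smul_comm, mul_comm (Complex.exp _), hsc, one_smul, star_mul, hPs]
    calc U t * P * (P * star (U t)) = U t * (P * P) * star (U t) := by noncomm_ring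
      _ = P * (U t * star (U t)) := by rw [hPP, (hUP t).eq]; noncomm_ring
      _ = P := by rw [hUU', mul_one]
  · show Complex.exp (-(Complex.I * (((0 : I) : ℝ) * θ))) • (U 0 * P) = P
    have : U 0 = 1 := by
      show ((expUnitary (((0 : I) : ℝ) • a) : unitary (H →L[ℂ] H)) : H →L[ℂ] H) = 1
      simp
    rw [this]
    simp
  · show Complex.exp (-(Complex.I * (((1 : I) : ℝ) * θ))) • (U 1 * P) = u
    have h1 : U 1 = Complex.exp (Complex.I * θ) • w := by
      show ((expUnitary (((1 : I) : ℝ) • a) : unitary (H →L[ℂ] H)) : H →L[ℂ] H) = _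
      have : (((1 : I) : ℝ) • a) = a := by
        rw [Set.Icc.coe_one]; exact one_smul ℝ a
      rw [this, hexpa]
    rw [h1, smul_mul_assoc, smul_smul, ← Complex.exp_add]
    have h2 : w * P = u := by
      rw [hw, add_mul, huP, sub_mul, one_mul, hPP]; simp
    rw [h2]
    simp

end

end Pool.Agent.CStarLift
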