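import Mathlib
import Pool.Agent.CStarLift.Corner

set_option autoImplicit false

namespace Pool.Agent.CStarLift

/-- the separable Hilbert space `ℓ²(ℕ)` -/
abbrev Hil : Type := lp (fun _ : ℕ => ℂ) 2

noncomputable def stdB : HilbertBasis ℕ ℂ Hil := HilbertBasis.ofRepr (LinearIsometryEquiv.refl ℂ Hil)

theorem orthonormal_row (i : ℕ) : Orthonormal ℂ (fun n : ℕ => stdB (Nat.pair i n)) := by
  have h := stdB.orthonormal
  exact h.comp (fun n => Nat.pair i n) (fun n m hnm => by
    have := congrArg (fun k => (Nat.unpair k).2) hnm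
    simpa using this)

noncomputable def isoL (i : ℕ) : Hil →ₗᵢ[ℂ] Hil := (orthonormal_row i).orthogonalFamily.linearIsometry

theorem isoL_hasSum (i : ℕ) (x : Hil) : HasSum (fun n => x n • stdB (Nat.pair i n)) (isoL i x) :=
  (orthonormal_row i).orthogonalFamily.hasSum_linearIsometry x

/-- isometries of `ℓ²` with pairwise orthogonal ranges -/
noncomputable def isoT (i : ℕ) : Hil →L[ℂ] Hil := (isoL i).toContinuousLinearMap

theorem inner_basis_isoL {i j : ℕ} (h : i ≠ j) (n : ℕ) (y : Hil) :
    inner ℂ (stdB (Nat.pair i n)) (isoL j y) = 0 := by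
  have h1 := (isoL_hasSum j y).mapL (innerSL ℂ (stdB (Nat.pair i n)))
  have h2 : ∀ m, (innerSL ℂ (stdB (Nat.pair i n))) (y m • stdB (Nat.pair j m)) = 0 := by
    intro m
    rw [innerSL_apply_apply, inner_smul_right]
    have : Nat.pair i n ≠ Nat.pair j m := by
      intro hc
      exact h (by simpa using congrArg (fun k => (Nat.unpair k).1) hc)
    rw [stdB.orthonormal.2 this, mul_zero]
  simp only [h2] at h1
  have := h1.unique hasSum_zero
  simpa using this

theorem inner_isoL_isoL {i j : ℕ} (h : i ≠ j) (x y : Hil) : inner ℂ (isoL i x) (isoL j y) = 0 := by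
  rw [← inner_conj_symm]
  have h1 := (isoL_hasSum i x).mapL (innerSL ℂ (isoL j y))
  have h2 : ∀ m, (innerSL ℂ (isoL j y)) (x m • stdB (Nat.pair i m)) = 0 := by
    intro m
    rw [innerSL_apply_apply, inner_smul_right, ← inner_conj_symm, inner_basis_isoL h]
    simp
  simp only [h2] at h1
  have := h1.unique hasSum_zero
  rw [innerSL_apply_apply] at this
  rw [this, map_zero]

theorem isoT_star_mul (i j : ℕ) : star (isoT i) * isoT j = if i = j then 1 else 0 := by
  split_ifs with h
  · subst h
    rw [ContinuousLinearMap.star_eq_adjoint]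
    exact (ContinuousLinearMap.norm_map_iff_adjoint_comp_self (isoT i)).mp (fun x => (isoL i).norm_map x)
  · ext1 y
    apply ext_inner_left ℂ
    intro x
    rw [ContinuousLinearMap.star_eq_adjoint, mul_apply_eq_comp,
      ContinuousLinearMap.adjoint_inner_right]
    have h3 : inner ℂ (isoT i x) (isoT j y) = 0 := inner_isoL_isoL h x y
    rw [h3]; simp

theorem norm_isoT_le (i : ℕ) : ‖isoT i‖ ≤ 1 := by
  have h := isoT_star_mul i i
  rw [if_pos rfl] at h
  have h2 : ‖isoT i‖ * ‖isoT i‖ = ‖(1 : Hil →L[ℂ] Hil)‖ := by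
    rw [← CStarRing.norm_star_mul_self, h]
  have h3 : ‖(1 : Hil →L[ℂ] Hil)‖ ≤ 1 := ContinuousLinearMap.norm_id_le
  nlinarith [norm_nonneg (isoT i)]

end Pool.Agent.CStarLift
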