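import Mathlib
import Pool.Agent.CStarLift.Isom

set_option autoImplicit false

namespace Pool.Agent.CStarLift

open unitInterval Matrix

section

variable {A : Type*} [Ring A] [StarRing A]
variable {ι κ μ : Type*} [Fintype ι] [Fintype κ] [Fintype μ] [DecidableEq ι] [DecidableEq κ]
  [DecidableEq μ]

/-- family of isometries with pairwise orthogonal ranges -/
def IsoFam (T : ι → A) : Prop := ∀ i j, star (T i) * T j = if i = j then 1 else 0

/-- compression of a rectangular matrix to a single element -/
def cmp (T' : κ → A) (T : ι → A) (v : Matrix κ ι A) : A := ∑ i, ∑ j, T' i * v i j * star (T j)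

omit [DecidableEq ι] [DecidableEq κ] in
theorem star_cmp (T' : κ → A) (T : ι → A) (v : Matrix κ ι A) :
    star (cmp T' T v) = cmp T T' vᴴ := by
  unfold cmp
  rw [star_sum]
  simp_rw [star_sum]
  rw [Finset.sum_comm]
  refine Finset.sum_congr rfl fun i _ => Finset.sum_congr rfl fun j _ => ?_
  simp [mul_assoc]

omit [DecidableEq ι] [DecidableEq μ] in
theorem cmp_mul (T'' : μ → A) {T' : κ → A} (hT' : IsoFam T') (T : ι → A) (w : Matrix μ κ A)
    (v : Matrix κ ι A) : cmp T'' T' w * cmp T' T v = cmp T'' T (w * v) := by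
  unfold cmp
  have h1 : ∀ i : μ, ∀ j : κ, (T'' i * w i j * star (T' j)) * (∑ a, ∑ b, T' a * v a b * star (T b))
      = ∑ b, T'' i * w i j * v j b * star (T b) := by
    intro i j
    rw [Finset.mul_sum]
    have h2 : ∀ a : κ, (T'' i * w i j * star (T' j)) * (∑ b, T' a * v a b * star (T b))
        = if j = a then ∑ b, T'' i * w i j * v j b * star (T b) else 0 := by
      intro a
      have h3 : ∀ b, (T'' i * w i j * star (T' j)) * (T' a * v a b * star (T b))
          = T'' i * w i j * (star (T' j) * T' a) * v a b * star (T b) := by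
        intro b; noncomm_ring
      rw [Finset.mul_sum]
      simp_rw [h3, hT' j a]
      split_ifs with h
      · subst h; simp
      · simp
    simp_rw [h2]
    simp
  rw [Finset.sum_mul]
  simp_rw [Finset.sum_mul, h1]
  refine Finset.sum_congr rfl fun i _ => ?_
  rw [Finset.sum_comm]
  refine Finset.sum_congr rfl fun b _ => ?_
  rw [Matrix.mul_apply, Finset.mul_sum, Finset.sum_mul]
  refine Finset.sum_congr rfl fun j _ => ?_
  noncomm_ring

theorem cmp_entry {T' : κ → A} (hT' : IsoFam T') {T : ι → A} (hT : IsoFam T) (v : Matrix κ ι A)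
    (i : κ) (j : ι) : star (T' i) * cmp T' T v * T j = v i j := by
  unfold cmp
  rw [Finset.mul_sum, Finset.sum_mul]
  have h1 : ∀ a : κ, star (T' i) * (∑ b, T' a * v a b * star (T b)) * T j
      = if i = a then v i j else 0 := by
    intro a
    rw [Finset.mul_sum, Finset.sum_mul]
    have h2 : ∀ b : ι, star (T' i) * (T' a * v a b * star (T b)) * T j
        = (star (T' i) * T' a) * v a b * (star (T b) * T j) := by
      intro b; noncomm_ring
    simp_rw [h2, hT' i a, hT _ j]
    split_ifs with h
    · subst h; simp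
    · simp
  simp_rw [h1]
  simp

theorem isStarProjection_cmp {T : ι → A} (hT : IsoFam T) {p : Matrix ι ι A} (h1 : p * p = p)
    (h2 : pᴴ = p) : IsStarProjection (cmp T T p) where
  isIdempotentElem := by rw [IsIdempotentElem, cmp_mul T hT T, h1]
  isSelfAdjoint := by rw [IsSelfAdjoint, star_cmp, h2]

/-- the range projection of a family of isometries fixes compressions -/
theorem range_mul_cmp {T' : κ → A} (hT' : IsoFam T') (T : ι → A) (v : Matrix κ ι A) :
    (∑ i, T' i * star (T' i)) * cmp T' T v = cmp T' T v := by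
  have h : (∑ i, T' i * star (T' i)) = cmp T' T' (1 : Matrix κ κ A) := by
    unfold cmp
    refine Finset.sum_congr rfl fun i _ => ?_
    rw [Finset.sum_eq_single i]
    · simp
    · intro b _ hb
      rw [Matrix.one_apply_ne (Ne.symm hb)]; simp
    · simp
  rw [h, cmp_mul T' hT' T, Matrix.one_mul]

/-- uncompression -/
def unc (T' : κ → A) (T : ι → A) (w : A) : Matrix κ ι A := fun i j => star (T' i) * w * T j

omit [Fintype κ] [DecidableEq κ] [Fintype ι] [DecidableEq ι] in
theorem unc_conjTranspose (T' : κ → A) (T : ι → A) (w : A) :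
    (unc T' T w)ᴴ = unc T T' (star w) := by
  ext i j
  simp [unc, mul_assoc]

theorem unc_star_mul {T' : κ → A} (hT' : IsoFam T') {T : ι → A} (hT : IsoFam T)
    {P : Matrix ι ι A} {Q : Matrix κ κ A} {w : A} (hw1 : star w * w = cmp T T P)
    (hw2 : cmp T' T' Q * w = w) : (unc T' T w)ᴴ * unc T' T w = P := by
  have h0 : (∑ i, T' i * star (T' i)) * w = w := by
    rw [← hw2, ← mul_assoc, range_mul_cmp hT']
  ext i j
  rw [Matrix.mul_apply]
  have h1 : ∀ a, (unc T' T w)ᴴ i a * unc T' T w a j
      = star (T i) * star w * (T' a * star (T' a)) * w * T j := by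
    intro a
    simp only [unc, conjTranspose_apply, star_mul, star_star]
    noncomm_ring
  simp_rw [h1]
  have h2 : ∑ a, star (T i) * star w * (T' a * star (T' a)) * w * T j
      = star (T i) * star w * ((∑ a, T' a * star (T' a)) * w) * T j := by
    rw [Finset.sum_mul, Finset.mul_sum, Finset.sum_mul]
    refine Finset.sum_congr rfl fun a _ => ?_
    noncomm_ring
  rw [h2, h0]
  have h3 : star (T i) * star w * w * T j = star (T i) * (star w * w) * T j := by noncomm_ring
  rw [h3, hw1, cmp_entry hT hT]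

end

section

variable {A : Type*} [CStarAlgebra A]

/-- The matrix form of path lifting. -/
theorem exists_path_matrix {T : ℕ → A} (hT : ∀ i j, star (T i) * T j = if i = j then 1 else 0)
    {k l : ℕ} (P : Matrix (Fin k) (Fin k) C(I, A)) (Q : Matrix (Fin l) (Fin l) C(I, A))
    (hP1 : P * P = P) (hP2 : Pᴴ = P) (hQ1 : Q * Q = Q) (hQ2 : Qᴴ = Q)
    (hc : CornerConn (cmp (fun i : Fin k => T i) (fun i : Fin k => T i) (P.map (fun f => f 0))))
    (v0 v1 : Matrix (Fin l) (Fin k) A)
    (h01 : v0ᴴ * v0 = P.map (fun f => f 0)) (h02 : v0 * v0ᴴ = Q.map (fun f => f 0))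
    (h11 : v1ᴴ * v1 = P.map (fun f => f 1)) (h12 : v1 * v1ᴴ = Q.map (fun f => f 1)) :
    ∃ v : Matrix (Fin l) (Fin k) C(I, A), vᴴ * v = P ∧ v * vᴴ = Q ∧
      (∀ i j, v i j 0 = v0 i j) ∧ (∀ i j, v i j 1 = v1 i j) ∧
      ∃ w : C(I, A), (∀ t, IsStarProjection (star (w t) * w t)) ∧
        ∀ i j t, v i j t = star (T i) * w t * T j := by
  let Tk : Fin k → A := fun i => T i
  let Tl : Fin l → A := fun i => T i
  have hTk : IsoFam Tk := by
    intro i j
    simp only [Tk, hT, Fin.val_inj]
  have hTl : IsoFam Tl := by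
    intro i j
    simp only [Tl, hT, Fin.val_inj]
  let Ck : Fin k → C(I, A) := fun i => ContinuousMap.const I (T i)
  let Cl : Fin l → C(I, A) := fun i => ContinuousMap.const I (T i)
  have hCk : IsoFam Ck := by
    intro i j
    ext t
    have := hTk i j
    simp only [Ck, ContinuousMap.mul_apply, ContinuousMap.star_apply, ContinuousMap.const_apply]
    simp only [Tk] at this
    rw [this]
    split_ifs <;> simp
  have hCl : IsoFam Cl := by
    intro i j
    ext t
    have := hTl i j
    simp only [Cl, ContinuousMap.mul_apply, ContinuousMap.star_apply, ContinuousMap.const_apply]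
    simp only [Tl] at this
    rw [this]
    split_ifs <;> simp
  have evk : ∀ (M : Matrix (Fin k) (Fin k) C(I, A)) (t : I),
      (cmp Ck Ck M) t = cmp Tk Tk (M.map (fun f => f t)) := by
    intro M t
    simp [cmp, Ck, Tk, ContinuousMap.sum_apply]
  have evl : ∀ (M : Matrix (Fin l) (Fin l) C(I, A)) (t : I),
      (cmp Cl Cl M) t = cmp Tl Tl (M.map (fun f => f t)) := by
    intro M t
    simp [cmp, Cl, Tl, ContinuousMap.sum_apply]
  have hPp := isStarProjection_cmp hCk hP1 hP2
  have hQp := isStarProjection_cmp hCl hQ1 hQ2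
  have hPt : ∀ t, IsStarProjection ((cmp Ck Ck P) t) := fun t =>
    ⟨congrArg (fun f : C(I, A) => f t) hPp.isIdempotentElem.eq,
     congrArg (fun f : C(I, A) => f t) hPp.isSelfAdjoint.star_eq⟩
  have hQt : ∀ t, IsStarProjection ((cmp Cl Cl Q) t) := fun t =>
    ⟨congrArg (fun f : C(I, A) => f t) hQp.isIdempotentElem.eq,
     congrArg (fun f : C(I, A) => f t) hQp.isSelfAdjoint.star_eq⟩
  obtain ⟨w, hw1, hw2, hw3, hw4⟩ := exists_path_partialIsometry (cmp Ck Ck P) (cmp Cl Cl Q) hPt hQt
    (by rw [evk]; exact hc) (cmp Tl Tk v0) (cmp Tl Tk v1)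
    (by rw [star_cmp, cmp_mul Tk hTl Tk, evk, h01])
    (by rw [star_cmp, cmp_mul Tl hTk Tl, evl, h02])
    (by rw [star_cmp, cmp_mul Tk hTl Tk, evk, h11])
    (by rw [star_cmp, cmp_mul Tl hTk Tl, evl, h12])
  have hw1' : star w * w = cmp Ck Ck P := by
    ext t; simpa using hw1 t
  have hw2' : w * star w = cmp Cl Cl Q := by
    ext t; simpa using hw2 t
  have hwQ : cmp Cl Cl Q * w = w := by
    ext t
    exact proj_mul_of_mul_star_self (hQt t) (hw2 t)
  have hwP : cmp Ck Ck P * star w = star w := by
    ext t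
    have := mul_proj_of_star_mul_self (hPt t) (hw1 t)
    have h3 := congrArg star this
    simpa [(hPt t).isSelfAdjoint.star_eq] using h3
  refine ⟨unc Cl Ck w, unc_star_mul hCl hCk hw1' hwQ, ?_, ?_, ?_, w, ?_, ?_⟩
  · have h := unc_star_mul (T' := Ck) hCk (T := Cl) hCl (P := Q) (Q := P) (w := star w)
      (by rw [star_star, hw2']) hwP
    rw [unc_conjTranspose, star_star] at h
    rw [unc_conjTranspose]
    exact h
  · intro i j
    have : (unc Cl Ck w i j) 0 = star (Tl i) * w 0 * Tk j := by
      simp [unc, Cl, Ck, Tl, Tk]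
    rw [this, hw3, cmp_entry hTl hTk]
  · intro i j
    have : (unc Cl Ck w i j) 1 = star (Tl i) * w 1 * Tk j := by
      simp [unc, Cl, Ck, Tl, Tk]
    rw [this, hw4, cmp_entry hTl hTk]
  · intro t
    rw [hw1 t]; exact hPt t
  · intro i j t
    simp [unc, Cl, Ck]

end

end Pool.Agent.CStarLift
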