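import Mathlib
import Pool.Agent.CStarLift.Compress

set_option autoImplicit false

namespace Pool.Agent.CStarLift

open unitInterval Module

section

variable {H : Type*} [NormedAddCommGroup H] [InnerProductSpace ℂ H] [CompleteSpace H]

/-- compact operators whose adjoint is compact too -/
def Cpt (a : H →L[ℂ] H) : Prop :=
  IsCompactOperator (a : H →L[ℂ] H) ∧ IsCompactOperator (star a : H →L[ℂ] H)

theorem Cpt.zero : Cpt (0 : H →L[ℂ] H) :=
  ⟨isCompactOperator_zero, by rw [star_zero]; exact isCompactOperator_zero⟩

theorem Cpt.add {a b : H →L[ℂ] H} (ha : Cpt a) (hb : Cpt b) : Cpt (a + b) :=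
  ⟨ha.1.add hb.1, by rw [star_add]; exact ha.2.add hb.2⟩

theorem Cpt.smul {a : H →L[ℂ] H} (c : ℂ) (ha : Cpt a) : Cpt (c • a) :=
  ⟨ha.1.smul c, by rw [star_smul]; exact ha.2.smul _⟩

theorem Cpt.star {a : H →L[ℂ] H} (ha : Cpt a) : Cpt (star a) :=
  ⟨ha.2, by rw [star_star]; exact ha.1⟩

theorem Cpt.mul_left {a : H →L[ℂ] H} (ha : Cpt a) (T : H →L[ℂ] H) : Cpt (T * a) :=
  ⟨ha.1.clm_comp T, by rw [star_mul]; exact ha.2.comp_clm (Star.star T)⟩

theorem Cpt.mul_right {a : H →L[ℂ] H} (ha : Cpt a) (T : H →L[ℂ] H) : Cpt (a * T) :=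
  ⟨ha.1.comp_clm T, by rw [star_mul]; exact ha.2.clm_comp (Star.star T)⟩

theorem Cpt.sum {ι : Type*} (s : Finset ι) (f : ι → (H →L[ℂ] H)) (h : ∀ i ∈ s, Cpt (f i)) :
    Cpt (∑ i ∈ s, f i) := by
  classical
  induction s using Finset.induction_on with
  | empty => simpa using Cpt.zero
  | insert a s ha ih =>
    rw [Finset.sum_insert ha]
    exact (h a (Finset.mem_insert_self _ _)).add (ih fun i hi => h i (Finset.mem_insert_of_mem hi))

theorem isClosed_cpt : IsClosed {a : H →L[ℂ] H | Cpt a} := by
  have h1 : IsClosed {a : H →L[ℂ] H | IsCompactOperator a} := isClosed_setOfPred_isCompactOperator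
  have h2 : IsClosed {a : H →L[ℂ] H | IsCompactOperator (star a : H →L[ℂ] H)} :=
    h1.preimage continuous_star
  exact h1.inter h2

theorem FinRank.cpt {P : H →L[ℂ] H} (hP : IsStarProjection P) (h : FinRank P) : Cpt P :=
  ⟨h.isCompactOperator, by rw [hP.isSelfAdjoint.star_eq]; exact h.isCompactOperator⟩

theorem Cpt.finRank {P : H →L[ℂ] H} (hc : Cpt P) (hP : IsStarProjection P) : FinRank P := by
  have hPP : P * P = P := hP.isIdempotentElem.eq
  have hfix : ∀ x ∈ LinearMap.range (P : H →ₗ[ℂ] H), P x = x := by
    rintro _ ⟨x, rfl⟩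
    have := congrArg (fun T : H →L[ℂ] H => T x) hPP
    simpa using this
  have hcl : IsClosed ((LinearMap.range (P : H →ₗ[ℂ] H) : Submodule ℂ H) : Set H) := by
    have : ((LinearMap.range (P : H →ₗ[ℂ] H) : Submodule ℂ H) : Set H) = {x | P x = x} := by
      ext x
      constructor
      · intro hx; exact hfix x hx
      · intro hx; exact ⟨x, hx⟩
    rw [this]
    exact isClosed_eq P.continuous continuous_id
  have h1 : IsCompactOperator ((P : H →ₗ[ℂ] H).restrict
      (p := LinearMap.range (P : H →ₗ[ℂ] H)) (q := LinearMap.range (P : H →ₗ[ℂ] H))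
      (fun x _ => ⟨x, rfl⟩)) :=
    IsCompactOperator.restrict (f := (P : H →ₗ[ℂ] H)) hc.1 _ hcl
  have h2 : ((P : H →ₗ[ℂ] H).restrict
      (p := LinearMap.range (P : H →ₗ[ℂ] H)) (q := LinearMap.range (P : H →ₗ[ℂ] H))
      (fun x _ => ⟨x, rfl⟩) : _ → _) = id := by
    ext x
    exact hfix x x.2
  rw [h2] at h1
  exact FiniteDimensional.of_isCompactOperator_id (𝕜 := ℂ) h1

end

section

variable {A : Type*} [CStarAlgebra A]

/-- orthogonal equivalent projections are joined by a path of projections -/
theorem exists_path_of_orthogonal {P Q w : A} (hP : IsStarProjection P) (hQ : IsStarProjection Q)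
    (hPQ : P * Q = 0) (h1 : star w * w = P) (h2 : w * star w = Q) :
    ∃ R : C(I, A), (∀ t, IsStarProjection (R t)) ∧ R 0 = P ∧ R 1 = Q := by
  have hPP : P * P = P := hP.isIdempotentElem.eq
  have hQQ : Q * Q = Q := hQ.isIdempotentElem.eq
  have hPs : star P = P := hP.isSelfAdjoint.star_eq
  have hQs : star Q = Q := hQ.isSelfAdjoint.star_eq
  have hQP : Q * P = 0 := by
    have := congrArg star hPQ
    simpa [hPs, hQs] using this
  have wP : w * P = w := mul_proj_of_star_mul_self hP h1
  have Qw : Q * w = w := proj_mul_of_mul_star_self hQ h2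
  have Pw : P * w = 0 := by rw [← Qw, ← mul_assoc, hPQ, zero_mul]
  have wQ : w * Q = 0 := by rw [← wP, mul_assoc, hPQ, mul_zero]
  have Pws : P * star w = star w := by
    have := congrArg star wP; simpa [hPs] using this
  have wsQ : star w * Q = star w := by
    have := congrArg star Qw; simpa [hQs] using this
  have wsP : star w * P = 0 := by
    have := congrArg star Pw; simpa [hPs] using this
  have Qws : Q * star w = 0 := by
    have := congrArg star wQ; simpa [hQs] using this
  have ww : w * w = 0 := by
    calc w * w = w * (Q * w) := by rw [Qw]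
      _ = (w * Q) * w := by rw [mul_assoc]
      _ = 0 := by rw [wQ, zero_mul]
  have wsws : star w * star w = 0 := by
    have := congrArg star ww; simpa using this
  let c : I → ℝ := fun t => Real.cos (Real.pi / 2 * t)
  let s : I → ℝ := fun t => Real.sin (Real.pi / 2 * t)
  have hcs : ∀ t, c t * c t + s t * s t = 1 := fun t => by
    have := Real.cos_sq_add_sin_sq (Real.pi / 2 * t)
    simp only [c, s]; nlinarith
  let R : C(I, A) := ⟨fun t => (c t * c t) • P + (s t * s t) • Q + (c t * s t) • (w + star w), by
    simp only [c, s]; fun_prop⟩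
  refine ⟨R, ?_, ?_, ?_⟩
  · intro t
    constructor
    · show ((c t * c t) • P + (s t * s t) • Q + (c t * s t) • (w + star w)) *
        ((c t * c t) • P + (s t * s t) • Q + (c t * s t) • (w + star w)) =
        ((c t * c t) • P + (s t * s t) • Q + (c t * s t) • (w + star w))
      simp only [mul_add, add_mul, smul_mul_smul_comm, smul_add, hPP, hQQ, hPQ, hQP, wP, Qw, Pw, wQ,
        Pws, wsQ, wsP, Qws, ww, wsws, h1, h2, smul_zero, add_zero, zero_add]
      have e := hcs t
      have e1 : c t * c t * (c t * c t) = c t * c t - (c t * s t) * (c t * s t) := by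
        have : c t * c t = 1 - s t * s t := by linarith
        calc c t * c t * (c t * c t) = c t * c t * (1 - s t * s t) := by rw [← this]
          _ = _ := by ring
      have e2 : s t * s t * (s t * s t) = s t * s t - (c t * s t) * (c t * s t) := by
        have : s t * s t = 1 - c t * c t := by linarith
        calc s t * s t * (s t * s t) = s t * s t * (1 - c t * c t) := by rw [← this]
          _ = _ := by ring
      have e3 : s t * s t * (c t * s t) = c t * s t - c t * c t * (c t * s t) := by
        have : s t * s t = 1 - c t * c t := by linarith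
        rw [this]; ring
      rw [e1, e2, mul_comm (c t * s t) (s t * s t), mul_comm (c t * s t) (c t * c t), e3]
      module
    · show star ((c t * c t) • P + (s t * s t) • Q + (c t * s t) • (w + star w)) =
        ((c t * c t) • P + (s t * s t) • Q + (c t * s t) • (w + star w))
      simp only [star_add, star_smul, hPs, hQs, star_star, star_trivial]
      rw [add_comm (star w) w]
  · show (c 0 * c 0) • P + (s 0 * s 0) • Q + (c 0 * s 0) • (w + star w) = P
    simp [c, s]
  · show (c 1 * c 1) • P + (s 1 * s 1) • Q + (c 1 * s 1) • (w + star w) = Q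
    simp [c, s]

end

theorem exists_proj_rk (N : ℕ) : ∃ E : Hil →L[ℂ] Hil, IsStarProjection E ∧ FinRank E ∧ rk E = N := by
  let V : Submodule ℂ Hil := Submodule.span ℂ (Set.range (fun i : Fin N => stdB (i : ℕ)))
  haveI : FiniteDimensional ℂ V := FiniteDimensional.span_of_finite ℂ (Set.finite_range _)
  have hr : LinearMap.range (V.starProjection : Hil →ₗ[ℂ] Hil) = V := Submodule.range_starProjection V
  refine ⟨V.starProjection, isStarProjection_starProjection, ?_, ?_⟩
  · unfold FinRank
    rw [hr]; infer_instance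
  · unfold rk
    rw [hr]
    have hli : LinearIndependent ℂ (fun i : Fin N => stdB (i : ℕ)) :=
      (stdB.orthonormal.comp (fun i : Fin N => (i : ℕ)) Fin.val_injective).linearIndependent
    rw [finrank_span_eq_card hli]
    simp

end Pool.Agent.CStarLift
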