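import Mathlib
import Pool.Agent.CStarLift.Cpt

set_option autoImplicit false

namespace Pool.Agent.CStarLift

open unitInterval Module
open scoped ENNReal

/-- the dual monoid of `ℕ^n` -/
abbrev DD (n : ℕ) : Type := (Fin n → ℕ) →+ ℕ

/-- bounded operators on `ℓ²` -/
abbrev BB : Type := Hil →L[ℂ] Hil

/-- bounded families indexed by `ι` in a C*-algebra -/
abbrev LP (ι A : Type) [NonUnitalCStarAlgebra A] : Type := lp (fun _ : ι => A) ∞

/-- the ambient C*-algebra -/
abbrev EE (n : ℕ) : Type := LP (DD n) BB × LP (DD n × DD n) C(I, BB)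

/-- the sum map `b, c ↦ T₀ b T₀* + T₁ c T₁*` -/
noncomputable def sg (b c : BB) : BB := isoT 0 * b * star (isoT 0) + isoT 1 * c * star (isoT 1)

/-- the embedding `b ↦ T₂ b T₂*` -/
noncomputable def em (b : BB) : BB := isoT 2 * b * star (isoT 2)

theorem iso_self (i : ℕ) : star (isoT i) * isoT i = 1 := by rw [isoT_star_mul, if_pos rfl]

theorem iso_ne {i j : ℕ} (h : i ≠ j) : star (isoT i) * isoT j = 0 := by rw [isoT_star_mul, if_neg h]

theorem em_add (b c : BB) : em (b + c) = em b + em c := by simp [em, mul_add, add_mul]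
theorem em_zero : em 0 = 0 := by simp [em]
theorem em_smul (z : ℂ) (b : BB) : em (z • b) = z • em b := by simp [em]
theorem em_star (b : BB) : em (star b) = star (em b) := by simp [em, mul_assoc]
theorem em_mul (b c : BB) : em (b * c) = em b * em c := by
  unfold em
  calc isoT 2 * (b * c) * star (isoT 2) = isoT 2 * b * 1 * c * star (isoT 2) := by
        simp [mul_assoc]
    _ = _ := by rw [← iso_self 2]; simp only [mul_assoc]

theorem sg_add (b b' c c' : BB) : sg (b + b') (c + c') = sg b c + sg b' c' := by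
  simp [sg, mul_add, add_mul]; abel
theorem sg_zero : sg 0 0 = 0 := by simp [sg]
theorem sg_smul (z : ℂ) (b c : BB) : sg (z • b) (z • c) = z • sg b c := by simp [sg]
theorem sg_star (b c : BB) : sg (star b) (star c) = star (sg b c) := by simp [sg, mul_assoc]
theorem sg_mul (b b' c c' : BB) : sg (b * b') (c * c') = sg b c * sg b' c' := by
  unfold sg
  have h01 : star (isoT 0) * isoT 1 = 0 := iso_ne (by norm_num)
  have h10 : star (isoT 1) * isoT 0 = 0 := iso_ne (by norm_num)
  have e : (isoT 0 * b * star (isoT 0) + isoT 1 * c * star (isoT 1)) *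
      (isoT 0 * b' * star (isoT 0) + isoT 1 * c' * star (isoT 1)) =
      isoT 0 * b * (star (isoT 0) * isoT 0) * b' * star (isoT 0) +
      isoT 0 * b * (star (isoT 0) * isoT 1) * c' * star (isoT 1) +
      isoT 1 * c * (star (isoT 1) * isoT 0) * b' * star (isoT 0) +
      isoT 1 * c * (star (isoT 1) * isoT 1) * c' * star (isoT 1) := by
    noncomm_ring
  rw [e, h01, h10, iso_self, iso_self]
  simp [mul_assoc]

theorem em_continuous {X : Type*} [TopologicalSpace X] {f : X → BB} (hf : Continuous f) :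
    Continuous (fun x => em (f x)) := by unfold em; fun_prop
theorem sg_continuous {X : Type*} [TopologicalSpace X] {f g : X → BB} (hf : Continuous f)
    (hg : Continuous g) : Continuous (fun x => sg (f x) (g x)) := by unfold sg; fun_prop
theorem em_cpt {b : BB} (hb : Cpt b) : Cpt (em b) := (hb.mul_left _).mul_right _
theorem sg_cpt {b c : BB} (hb : Cpt b) (hc : Cpt c) : Cpt (sg b c) :=
  ((hb.mul_left _).mul_right _).add ((hc.mul_left _).mul_right _)

/-- first kind of coordinate -/
noncomputable def e1 {n : ℕ} (f : DD n) (x : EE n) : BB := x.1 f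

/-- second kind of coordinate -/
noncomputable def e2 {n : ℕ} (f g : DD n) (t : I) (x : EE n) : BB := x.2 (f, g) t

theorem e1_zero {n : ℕ} (f : DD n) : e1 f (0 : EE n) = 0 := rfl
theorem e1_add {n : ℕ} (f : DD n) (x y : EE n) : e1 f (x + y) = e1 f x + e1 f y := rfl
theorem e1_mul {n : ℕ} (f : DD n) (x y : EE n) : e1 f (x * y) = e1 f x * e1 f y := rfl
theorem e1_smul {n : ℕ} (f : DD n) (c : ℂ) (x : EE n) : e1 f (c • x) = c • e1 f x := rfl
theorem e1_star {n : ℕ} (f : DD n) (x : EE n) : e1 f (star x) = star (e1 f x) := rfl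
theorem e2_zero {n : ℕ} (f g : DD n) (t : I) : e2 f g t (0 : EE n) = 0 := rfl
theorem e2_add {n : ℕ} (f g : DD n) (t : I) (x y : EE n) :
    e2 f g t (x + y) = e2 f g t x + e2 f g t y := rfl
theorem e2_mul {n : ℕ} (f g : DD n) (t : I) (x y : EE n) :
    e2 f g t (x * y) = e2 f g t x * e2 f g t y := rfl
theorem e2_smul {n : ℕ} (f g : DD n) (t : I) (c : ℂ) (x : EE n) :
    e2 f g t (c • x) = c • e2 f g t x := rfl
theorem e2_star {n : ℕ} (f g : DD n) (t : I) (x : EE n) :
    e2 f g t (star x) = star (e2 f g t x) := rfl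

theorem e1_continuous {n : ℕ} (f : DD n) : Continuous (e1 f : EE n → BB) := by
  have h : Continuous (fun x : LP (DD n) BB => x f) :=
    (lp.evalCLM ℂ (fun _ : DD n => BB) ∞ f).continuous
  exact h.comp continuous_fst

theorem e2_continuous {n : ℕ} (f g : DD n) (t : I) :
    Continuous (e2 f g t : EE n → BB) := by
  have h : Continuous (fun x : LP (DD n × DD n) C(I, BB) => x (f, g)) :=
    (lp.evalCLM ℂ (fun _ : DD n × DD n => C(I, BB)) ∞ (f, g)).continuous
  have h2 : Continuous (fun g : C(I, BB) => g t) := continuous_eval_const t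
  exact h2.comp (h.comp continuous_snd)

attribute [irreducible] e1 e2 em sg

/-- the defining condition of the C*-algebra attached to `ℕ^n` -/
def Good {n : ℕ} (x : EE n) : Prop :=
  (∀ f, Cpt (e1 f x)) ∧ ∀ f g, e2 f g 0 x = em (e1 (f + g) x) ∧
    e2 f g 1 x = sg (e1 f x) (e1 g x)

/-- the C*-algebra attached to `ℕ^n` -/
noncomputable def Alg (n : ℕ) : NonUnitalStarSubalgebra ℂ (EE n) where
  carrier := {x | Good x}
  zero_mem' := by
    refine ⟨fun f => ?_, fun f g => ⟨?_, ?_⟩⟩
    · rw [e1_zero]; exact Cpt.zero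
    · rw [e1_zero, e2_zero, em_zero]
    · rw [e1_zero, e1_zero, e2_zero, sg_zero]
  add_mem' := by
    rintro x y ⟨hx1, hx2⟩ ⟨hy1, hy2⟩
    refine ⟨fun f => ?_, fun f g => ⟨?_, ?_⟩⟩
    · rw [e1_add]; exact (hx1 f).add (hy1 f)
    · rw [e1_add, e2_add, em_add, (hx2 f g).1, (hy2 f g).1]
    · rw [e1_add, e1_add, e2_add, sg_add, (hx2 f g).2, (hy2 f g).2]
  mul_mem' := by
    rintro x y ⟨hx1, hx2⟩ ⟨hy1, hy2⟩
    refine ⟨fun f => ?_, fun f g => ⟨?_, ?_⟩⟩
    · rw [e1_mul]; exact (hy1 f).mul_left _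
    · rw [e1_mul, e2_mul, em_mul, (hx2 f g).1, (hy2 f g).1]
    · rw [e1_mul, e1_mul, e2_mul, sg_mul, (hx2 f g).2, (hy2 f g).2]
  smul_mem' := by
    rintro c x ⟨hx1, hx2⟩
    refine ⟨fun f => ?_, fun f g => ⟨?_, ?_⟩⟩
    · rw [e1_smul]; exact (hx1 f).smul c
    · rw [e1_smul, e2_smul, em_smul, (hx2 f g).1]
    · rw [e1_smul, e1_smul, e2_smul, sg_smul, (hx2 f g).2]
  star_mem' := by
    rintro x ⟨hx1, hx2⟩
    refine ⟨fun f => ?_, fun f g => ⟨?_, ?_⟩⟩
    · rw [e1_star]; exact (hx1 f).star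
    · rw [e1_star, e2_star, em_star, (hx2 f g).1]
    · rw [e1_star, e1_star, e2_star, sg_star, (hx2 f g).2]

theorem isClosed_good (n : ℕ) : IsClosed {x : EE n | Good x} := by
  have h1 : IsClosed {x : EE n | ∀ f, Cpt (e1 f x)} := by
    have : {x : EE n | ∀ f, Cpt (e1 f x)} = ⋂ f : DD n, {x : EE n | Cpt (e1 f x)} := by
      ext x; simp
    rw [this]
    exact isClosed_iInter fun f => isClosed_cpt.preimage (e1_continuous f)
  have h2 : IsClosed {x : EE n | ∀ f g, e2 f g 0 x = em (e1 (f + g) x)} := by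
    have : {x : EE n | ∀ f g, e2 f g 0 x = em (e1 (f + g) x)} =
        ⋂ f : DD n, ⋂ g : DD n, {x : EE n | e2 f g 0 x = em (e1 (f + g) x)} := by
      ext x; simp
    rw [this]
    exact isClosed_iInter fun f => isClosed_iInter fun g =>
      isClosed_eq (e2_continuous f g 0) (em_continuous (e1_continuous (f + g)))
  have h3 : IsClosed {x : EE n | ∀ f g, e2 f g 1 x = sg (e1 f x) (e1 g x)} := by
    have : {x : EE n | ∀ f g, e2 f g 1 x = sg (e1 f x) (e1 g x)} =
        ⋂ f : DD n, ⋂ g : DD n, {x : EE n | e2 f g 1 x = sg (e1 f x) (e1 g x)} := by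
      ext x; simp
    rw [this]
    exact isClosed_iInter fun f => isClosed_iInter fun g =>
      isClosed_eq (e2_continuous f g 1) (sg_continuous (e1_continuous f) (e1_continuous g))
  have : {x : EE n | Good x} = {x : EE n | ∀ f, Cpt (e1 f x)} ∩
      ({x : EE n | ∀ f g, e2 f g 0 x = em (e1 (f + g) x)} ∩
        {x : EE n | ∀ f g, e2 f g 1 x = sg (e1 f x) (e1 g x)}) := by
    ext x
    constructor
    · rintro ⟨a, b⟩
      exact ⟨a, fun f g => (b f g).1, fun f g => (b f g).2⟩
    · rintro ⟨a, b, c⟩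
      exact ⟨a, fun f g => ⟨b f g, c f g⟩⟩
  rw [this]
  exact h1.inter (h2.inter h3)

instance isClosed_alg (n : ℕ) :
    IsClosed ((Alg n : NonUnitalStarSubalgebra ℂ (EE n)) : Set (EE n)) := isClosed_good n

/-- the C*-algebras of the functor -/
abbrev AA (n : ℕ) : Type := Alg n

noncomputable instance instAA (n : ℕ) : NonUnitalCStarAlgebra (AA n) :=
  NonUnitalStarSubalgebra.nonUnitalCStarAlgebra (Alg n)

end Pool.Agent.CStarLift
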