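import Mathlib
import Pool.Agent.CStarLift.Alg

set_option autoImplicit false

namespace Pool.Agent.CStarLift

open unitInterval Module Matrix
open scoped ENNReal

/-- evaluation at a functional -/
noncomputable def evH {n : ℕ} (f : DD n) : AA n →⋆ₙₐ[ℂ] BB where
  toFun x := e1 f (x : EE n)
  map_smul' c x := by
    show e1 f (c • (x : EE n)) = c • e1 f (x : EE n)
    unfold e1; rfl
  map_zero' := by
    show e1 f (0 : EE n) = 0
    unfold e1; rfl
  map_add' x y := by
    show e1 f ((x : EE n) + (y : EE n)) = e1 f (x : EE n) + e1 f (y : EE n)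
    unfold e1; rfl
  map_mul' x y := by
    show e1 f ((x : EE n) * (y : EE n)) = e1 f (x : EE n) * e1 f (y : EE n)
    unfold e1; rfl
  map_star' x := by
    show e1 f (star (x : EE n)) = star (e1 f (x : EE n))
    unfold e1; rfl

/-- evaluation at a pair of functionals -/
noncomputable def evC {n : ℕ} (f g : DD n) : AA n →⋆ₙₐ[ℂ] C(I, BB) where
  toFun x := (x : EE n).2 (f, g)
  map_smul' c x := rfl
  map_zero' := rfl
  map_add' x y := rfl
  map_mul' x y := rfl
  map_star' x := rfl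

theorem evC_zero {n : ℕ} (f g : DD n) (x : AA n) : evC f g x 0 = em (evH (f + g) x) := by
  have h := (x.2.2 f g).1
  unfold e2 at h
  exact h

theorem evC_one {n : ℕ} (f g : DD n) (x : AA n) : evC f g x 1 = sg (evH f x) (evH g x) := by
  have h := (x.2.2 f g).2
  unfold e2 at h
  exact h

theorem evH_cpt {n : ℕ} (f : DD n) (x : AA n) : Cpt (evH f x) := x.2.1 f

theorem AA_ext {n : ℕ} {x y : AA n} (h1 : ∀ f, evH f x = evH f y) (h2 : ∀ f g, evC f g x = evC f g y) :
    x = y := by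
  apply Subtype.ext
  apply Prod.ext
  · apply Subtype.ext
    funext f
    have := h1 f
    simp only [evH] at this
    unfold e1 at this
    exact this
  · apply Subtype.ext
    funext ⟨f, g⟩
    exact h2 f g

/-- Constructing elements. -/
theorem exists_AA {n : ℕ} (b : DD n → BB) (h : DD n → DD n → C(I, BB))
    (hb : ∃ C : ℝ, ∀ f, ‖b f‖ ≤ C) (hh : ∃ C : ℝ, ∀ f g, ‖h f g‖ ≤ C) (hc : ∀ f, Cpt (b f))
    (h0 : ∀ f g, h f g 0 = em (b (f + g))) (h1 : ∀ f g, h f g 1 = sg (b f) (b g)) :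
    ∃ x : AA n, (∀ f, evH f x = b f) ∧ ∀ f g, evC f g x = h f g := by
  obtain ⟨C, hC⟩ := hb
  obtain ⟨C', hC'⟩ := hh
  have m1 : Memℓp (E := fun _ : DD n => BB) b ∞ := by
    apply memℓp_infty
    exact ⟨C, by rintro _ ⟨f, rfl⟩; exact hC f⟩
  have m2 : Memℓp (E := fun _ : DD n × DD n => C(I, BB)) (fun p => h p.1 p.2) ∞ := by
    apply memℓp_infty
    exact ⟨C', by rintro _ ⟨f, rfl⟩; exact hC' f.1 f.2⟩
  let X : EE n := (⟨b, m1⟩, ⟨fun p => h p.1 p.2, m2⟩)
  have hX : Good X := by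
    refine ⟨fun f => ?_, fun f g => ⟨?_, ?_⟩⟩
    · unfold e1; exact hc f
    · unfold e1 e2; exact h0 f g
    · unfold e1 e2; exact h1 f g
  refine ⟨⟨X, hX⟩, fun f => ?_, fun f g => rfl⟩
  simp only [evH]
  unfold e1; rfl

theorem exists_bound {n : ℕ} (x : AA n) : ∃ C : ℝ, (∀ f, ‖evH f x‖ ≤ C) ∧ ∀ f g, ‖evC f g x‖ ≤ C := by
  refine ⟨max ‖(x : EE n).1‖ ‖(x : EE n).2‖, fun f => ?_, fun f g => ?_⟩
  · refine le_trans ?_ (le_max_left _ _)
    have : evH f x = (x : EE n).1 f := by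
      simp only [evH]; unfold e1; rfl
    rw [this]
    exact lp.norm_apply_le_norm (by simp) _ _
  · refine le_trans ?_ (le_max_right _ _)
    exact lp.norm_apply_le_norm (by simp) (x : EE n).2 (f, g)

end Pool.Agent.CStarLift
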