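import Mathlib
import Pool.Agent.CStarLift.Eval

set_option autoImplicit false

namespace Pool.Agent.CStarLift

open unitInterval Module Matrix
open scoped ENNReal

theorem exists_push {m n : ℕ} (α : (Fin m → ℕ) →+ (Fin n → ℕ)) (x : AA m) :
    ∃ y : AA n, (∀ f, evH f y = evH (f.comp α) x) ∧
      ∀ f g, evC f g y = evC (f.comp α) (g.comp α) x := by
  obtain ⟨C, hC1, hC2⟩ := exists_bound x
  refine exists_AA (fun f => evH (f.comp α) x) (fun f g => evC (f.comp α) (g.comp α) x)
    ⟨C, fun f => hC1 _⟩ ⟨C, fun f g => hC2 _ _⟩ (fun f => evH_cpt _ _) (fun f g => ?_)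
    (fun f g => ?_)
  · rw [evC_zero, AddMonoidHom.add_comp]
  · rw [evC_one]

/-- the action of the functor on elements -/
noncomputable def push {m n : ℕ} (α : (Fin m → ℕ) →+ (Fin n → ℕ)) (x : AA m) : AA n :=
  Classical.choose (exists_push α x)

theorem evH_push {m n : ℕ} (α : (Fin m → ℕ) →+ (Fin n → ℕ)) (x : AA m) (f : DD n) :
    evH f (push α x) = evH (f.comp α) x := (Classical.choose_spec (exists_push α x)).1 f

theorem evC_push {m n : ℕ} (α : (Fin m → ℕ) →+ (Fin n → ℕ)) (x : AA m) (f g : DD n) :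
    evC f g (push α x) = evC (f.comp α) (g.comp α) x :=
  (Classical.choose_spec (exists_push α x)).2 f g

/-- the functor on morphisms -/
noncomputable def FF (m n : ℕ) (α : (Fin m → ℕ) →+ (Fin n → ℕ)) : AA m →⋆ₙₐ[ℂ] AA n where
  toFun := push α
  map_smul' c x := by
    apply AA_ext
    · intro f; simp only [MonoidHom.id_apply, map_smul, evH_push]
    · intro f g; simp only [MonoidHom.id_apply, map_smul, evC_push]
  map_zero' := by
    apply AA_ext
    · intro f; simp only [map_zero, evH_push]
    · intro f g; simp only [map_zero, evC_push]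
  map_add' x y := by
    apply AA_ext
    · intro f; simp only [map_add, evH_push]
    · intro f g; simp only [map_add, evC_push]
  map_mul' x y := by
    apply AA_ext
    · intro f; simp only [map_mul, evH_push]
    · intro f g; simp only [map_mul, evC_push]
  map_star' x := by
    apply AA_ext
    · intro f; simp only [map_star, evH_push]
    · intro f g; simp only [map_star, evC_push]

theorem evH_FF {m n : ℕ} (α : (Fin m → ℕ) →+ (Fin n → ℕ)) (x : AA m) (f : DD n) :
    evH f (FF m n α x) = evH (f.comp α) x := evH_push α x f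

theorem evC_FF {m n : ℕ} (α : (Fin m → ℕ) →+ (Fin n → ℕ)) (x : AA m) (f g : DD n) :
    evC f g (FF m n α x) = evC (f.comp α) (g.comp α) x := evC_push α x f g

theorem FF_id (n : ℕ) : FF n n (AddMonoidHom.id (Fin n → ℕ)) = NonUnitalStarAlgHom.id ℂ (AA n) := by
  ext1 x
  apply AA_ext
  · intro f; rw [evH_FF]; rfl
  · intro f g; rw [evC_FF]; rfl

theorem FF_comp (m n l : ℕ) (α : (Fin m → ℕ) →+ (Fin n → ℕ)) (β : (Fin n → ℕ) →+ (Fin l → ℕ)) :
    FF m l (β.comp α) = (FF n l β).comp (FF m n α) := by
  ext1 x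
  apply AA_ext
  · intro f
    rw [NonUnitalStarAlgHom.comp_apply, evH_FF, evH_FF, evH_FF, AddMonoidHom.comp_assoc]
  · intro f g
    rw [NonUnitalStarAlgHom.comp_apply, evC_FF, evC_FF, evC_FF, AddMonoidHom.comp_assoc,
      AddMonoidHom.comp_assoc]

/-! ### Ranks of projections over `AA n` -/

/-- the rank of a projection matrix over bounded operators -/
noncomputable def rkM {k : ℕ} (M : Matrix (Fin k) (Fin k) BB) : ℕ :=
  rk (cmp (fun i : Fin k => isoT i) (fun i : Fin k => isoT i) M)

theorem isoFam_fin (k : ℕ) : IsoFam (fun i : Fin k => isoT i) := by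
  intro i j
  simp only [isoT_star_mul, Fin.val_inj]

theorem cmp_cpt {k : ℕ} (T : Fin k → BB) (M : Matrix (Fin k) (Fin k) BB) (h : ∀ i j, Cpt (M i j)) :
    Cpt (cmp T T M) := by
  unfold cmp
  refine Cpt.sum _ _ fun i _ => Cpt.sum _ _ fun j _ => ?_
  exact ((h i j).mul_left _).mul_right _

/-- The rank may be computed with any family of isometries. -/
theorem rk_cmp_eq {k : ℕ} {T T' : Fin k → BB} (hT : IsoFam T) (hT' : IsoFam T')
    {M : Matrix (Fin k) (Fin k) BB} (h1 : M * M = M) (h2 : Mᴴ = M) (hc : ∀ i j, Cpt (M i j)) :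
    rk (cmp T T M) = rk (cmp T' T' M) := by
  have hp := isStarProjection_cmp hT h1 h2
  have hp' := isStarProjection_cmp hT' h1 h2
  have hm : MvN (cmp T T M) (cmp T' T' M) := by
    refine ⟨cmp T' T M, ?_, ?_⟩
    · rw [star_cmp, cmp_mul T hT' T, h2, h1]
    · rw [star_cmp, cmp_mul T' hT T', h2, h1]
  exact hm.rk_eq hp hp' ((cmp_cpt T M hc).finRank hp)

/-- orthogonality of compressions with respect to orthogonal families -/
theorem cmp_mul_cmp_eq_zero {A : Type*} [Ring A] [StarRing A] {ι κ : Type*} [Fintype ι] [Fintype κ]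
    {T : ι → A} {T' : κ → A} (h : ∀ i j, star (T i) * T' j = 0) (M : Matrix ι ι A)
    (N : Matrix κ κ A) : cmp T T M * cmp T' T' N = 0 := by
  unfold cmp
  rw [Finset.sum_mul]
  refine Finset.sum_eq_zero fun i _ => ?_
  rw [Finset.sum_mul]
  refine Finset.sum_eq_zero fun j _ => ?_
  rw [Finset.mul_sum]
  refine Finset.sum_eq_zero fun a _ => ?_
  rw [Finset.mul_sum]
  refine Finset.sum_eq_zero fun b _ => ?_
  have : T i * M i j * star (T j) * (T' a * N a b * star (T' b))
      = T i * M i j * (star (T j) * T' a) * N a b * star (T' b) := by noncomm_ring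
  rw [this, h]; simp

theorem map_mul_nu {A B : Type*} [NonUnitalNonAssocSemiring A] [NonUnitalNonAssocSemiring B]
    {F : Type*} [FunLike F A B] [NonUnitalRingHomClass F A B] (f : F) {ι κ μ : Type*} [Fintype κ]
    (M : Matrix ι κ A) (N : Matrix κ μ A) : (M * N).map f = M.map f * N.map f := by
  ext i j
  simp [Matrix.mul_apply, map_sum]

theorem map_conjTranspose_nu {A B : Type*} [NonUnitalNonAssocSemiring A] [StarRing A]
    [NonUnitalNonAssocSemiring B] [StarRing B]
    {F : Type*} [FunLike F A B] [StarHomClass F A B] (f : F) {ι κ : Type*}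
    (M : Matrix ι κ A) : (Mᴴ).map f = (M.map f)ᴴ := by
  ext i j
  simp [map_star]

section

variable {n k : ℕ} {p : Matrix (Fin k) (Fin k) (AA n)}

theorem evH_mul (hp : p * p = p) (f : DD n) : p.map (evH f) * p.map (evH f) = p.map (evH f) := by
  rw [← map_mul_nu, hp]

theorem evH_star (hp : pᴴ = p) (f : DD n) : (p.map (evH f))ᴴ = p.map (evH f) := by
  rw [← map_conjTranspose_nu, hp]

theorem evC_mul (hp : p * p = p) (f g : DD n) :
    p.map (evC f g) * p.map (evC f g) = p.map (evC f g) := by
  have h := map_mul_nu (evC f g) p p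
  rw [hp] at h
  exact h.symm

theorem evC_star (hp : pᴴ = p) (f g : DD n) : (p.map (evC f g))ᴴ = p.map (evC f g) := by
  have h := map_conjTranspose_nu (evC f g) p
  rw [hp] at h
  exact h.symm

/-- the rank function of a projection -/
noncomputable def rf (p : Matrix (Fin k) (Fin k) (AA n)) (f : DD n) : ℕ := rkM (p.map (evH f))

theorem ne_isoT {i j : ℕ} (h : i ≠ j) : star (isoT i) * isoT j = 0 := iso_ne h

theorem isoFam_mul {T : Fin k → BB} (hT : IsoFam T) (a : ℕ) : IsoFam (fun i => T i * isoT a) := by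
  intro i j
  have : star (T i * isoT a) * (T j * isoT a) = star (isoT a) * (star (T i) * T j) * isoT a := by
    rw [star_mul]; noncomm_ring
  simp only [this]
  rw [hT i j]
  split_ifs
  · rw [mul_one, iso_self]
  · simp

theorem rf_add (h1 : p * p = p) (h2 : pᴴ = p) (f g : DD n) : rf p (f + g) = rf p f + rf p g := by
  let T : Fin k → BB := fun i => isoT i
  have hT : IsoFam T := isoFam_fin k
  let C : Fin k → C(I, BB) := fun i => ContinuousMap.const I (isoT i)
  have hC : IsoFam C := by
    intro i j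
    ext1 t
    have := hT i j
    simp only [C, ContinuousMap.mul_apply, ContinuousMap.star_apply, ContinuousMap.const_apply]
    simp only [T] at this
    rw [this]
    split_ifs <;> simp
  let P : C(I, BB) := cmp C C (p.map (evC f g))
  have hP := isStarProjection_cmp hC (evC_mul h1 f g) (evC_star h2 f g)
  have hPt : ∀ t, IsStarProjection (P t) := fun t =>
    ⟨congrArg (fun f : C(I, BB) => f t) hP.isIdempotentElem.eq,
     congrArg (fun f : C(I, BB) => f t) hP.isSelfAdjoint.star_eq⟩
  have hm := mvn_of_homotopy P hPt 0 1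
  have hPev : ∀ t, P t = cmp T T ((p.map (evC f g)).map (fun F => F t)) := by
    intro t
    simp [P, cmp, C, T, ContinuousMap.sum_apply]
  have hP0 : P 0 = cmp (fun i => T i * isoT 2) (fun i => T i * isoT 2) (p.map (evH (f + g))) := by
    rw [hPev]
    unfold cmp
    refine Finset.sum_congr rfl fun i _ => Finset.sum_congr rfl fun j _ => ?_
    simp only [Matrix.map_apply]
    rw [evC_zero]
    unfold em
    rw [star_mul]
    noncomm_ring
  have hP1 : P 1 = cmp (fun i => T i * isoT 0) (fun i => T i * isoT 0) (p.map (evH f)) +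
      cmp (fun i => T i * isoT 1) (fun i => T i * isoT 1) (p.map (evH g)) := by
    rw [hPev]
    unfold cmp
    rw [← Finset.sum_add_distrib]
    refine Finset.sum_congr rfl fun i _ => ?_
    rw [← Finset.sum_add_distrib]
    refine Finset.sum_congr rfl fun j _ => ?_
    simp only [Matrix.map_apply]
    rw [evC_one]
    unfold sg
    rw [star_mul, star_mul]
    noncomm_ring
  have hcf : ∀ f : DD n, ∀ i j, Cpt ((p.map (evH f)) i j) := fun f i j => evH_cpt f (p i j)
  have hT2 := isoFam_mul hT 2
  have hT0 := isoFam_mul hT 0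
  have hT1 := isoFam_mul hT 1
  have hq2 := isStarProjection_cmp hT2 (evH_mul h1 (f + g)) (evH_star h2 (f + g))
  have hq0 := isStarProjection_cmp hT0 (evH_mul h1 f) (evH_star h2 f)
  have hq1 := isStarProjection_cmp hT1 (evH_mul h1 g) (evH_star h2 g)
  have hf2 := (cmp_cpt (fun i => T i * isoT 2) _ (hcf (f + g))).finRank hq2
  have hf0 := (cmp_cpt (fun i => T i * isoT 0) _ (hcf f)).finRank hq0
  have hf1 := (cmp_cpt (fun i => T i * isoT 1) _ (hcf g)).finRank hq1
  have horth : cmp (fun i => T i * isoT 0) (fun i => T i * isoT 0) (p.map (evH f)) *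
      cmp (fun i => T i * isoT 1) (fun i => T i * isoT 1) (p.map (evH g)) = 0 := by
    apply cmp_mul_cmp_eq_zero
    intro i j
    have : star (T i * isoT 0) * (T j * isoT 1) = star (isoT 0) * (star (T i) * T j) * isoT 1 := by
      rw [star_mul]; noncomm_ring
    rw [this, hT i j]
    split_ifs
    · rw [mul_one]; exact iso_ne (by norm_num)
    · simp
  have e := hm.rk_eq (hPt 0) (hPt 1) (by rw [hP0]; exact hf2)
  rw [hP0, hP1, rk_add hq0 hq1 hf0 hf1 horth] at e
  rw [rk_cmp_eq hT2 hT (evH_mul h1 _) (evH_star h2 _) (hcf _),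
    rk_cmp_eq hT0 hT (evH_mul h1 _) (evH_star h2 _) (hcf _),
    rk_cmp_eq hT1 hT (evH_mul h1 _) (evH_star h2 _) (hcf _)] at e
  exact e

/-- the rank function as an additive map -/
noncomputable def rfHom (h1 : p * p = p) (h2 : pᴴ = p) : DD n →+ ℕ where
  toFun := rf p
  map_zero' := by
    have := rf_add h1 h2 0 0
    rw [add_zero] at this
    omega
  map_add' := rf_add h1 h2

/-- coordinate functional -/
def cf {n : ℕ} (i : Fin n) : DD n := Pi.evalAddMonoidHom (fun _ => ℕ) i

theorem rf_eq (h1 : p * p = p) (h2 : pᴴ = p) (f : DD n) : rf p f = f (fun i => rf p (cf i)) := by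
  have hf : f = ∑ i, f (Pi.single i 1) • cf i := by
    ext i
    simp only [AddMonoidHom.coe_comp, Function.comp_apply]
    rw [AddMonoidHom.finsetSum_apply, Finset.sum_eq_single i]
    · simp [cf]
    · intro b _ hb
      simp [cf, hb]
    · simp
  have h3 : rfHom h1 h2 f = ∑ i, f (Pi.single i 1) * rf p (cf i) := by
    conv_lhs => rw [hf]
    rw [map_sum]
    refine Finset.sum_congr rfl fun i _ => ?_
    rw [map_nsmul, smul_eq_mul]
    rfl
  have h4 : f (fun i => rf p (cf i)) = ∑ i, f (Pi.single i 1) * rf p (cf i) := by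
    have : (fun i => rf p (cf i)) = ∑ i, rf p (cf i) • (Pi.single i 1 : Fin n → ℕ) := by
      funext j
      rw [Finset.sum_apply, Finset.sum_eq_single j]
      · simp
      · intro b _ hb
        simp [Ne.symm hb]
      · simp
    conv_lhs => rw [this]
    rw [map_sum]
    refine Finset.sum_congr rfl fun i _ => ?_
    rw [map_nsmul, smul_eq_mul, mul_comm]
  rw [h4, ← h3]
  rfl

end

end Pool.Agent.CStarLift
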