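import Mathlib
import Pool.Agent.CStarLift.Functor

set_option autoImplicit false

namespace Pool.Agent.CStarLift

open unitInterval Module Matrix
open scoped ENNReal

/-! ### entrywise maps -/

theorem em_sum {ι : Type*} (s : Finset ι) (f : ι → BB) : em (∑ i ∈ s, f i) = ∑ i ∈ s, em (f i) := by
  classical
  induction s using Finset.induction_on with
  | empty => simp [em_zero]
  | insert a s ha ih => rw [Finset.sum_insert ha, Finset.sum_insert ha, em_add, ih]

theorem sg_sum {ι : Type*} (s : Finset ι) (f g : ι → BB) :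
    sg (∑ i ∈ s, f i) (∑ i ∈ s, g i) = ∑ i ∈ s, sg (f i) (g i) := by
  classical
  induction s using Finset.induction_on with
  | empty => simp [sg_zero]
  | insert a s ha ih =>
    rw [Finset.sum_insert ha, Finset.sum_insert ha, Finset.sum_insert ha, sg_add, ih]

theorem em_matrix {k l : ℕ} (v : Matrix (Fin l) (Fin k) BB) :
    (v.map em)ᴴ * v.map em = (vᴴ * v).map em := by
  ext i j
  simp only [Matrix.mul_apply, Matrix.map_apply, conjTranspose_apply, em_sum, em_mul, em_star]

/-- entrywise sum map -/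
noncomputable def sgm {k l : ℕ} (v w : Matrix (Fin l) (Fin k) BB) : Matrix (Fin l) (Fin k) BB :=
  fun i j => sg (v i j) (w i j)

theorem sg_matrix {k l : ℕ} (v w : Matrix (Fin l) (Fin k) BB) :
    (sgm v w)ᴴ * sgm v w = sgm (vᴴ * v) (wᴴ * w) := by
  ext i j
  simp only [Matrix.mul_apply, sgm, conjTranspose_apply, sg_sum, sg_mul, sg_star]

theorem em_matrix' {k l : ℕ} (v : Matrix (Fin l) (Fin k) BB) :
    v.map em * (v.map em)ᴴ = (v * vᴴ).map em := by
  ext i j
  simp only [Matrix.mul_apply, Matrix.map_apply, conjTranspose_apply, em_sum, em_mul, em_star]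

theorem sg_matrix' {k l : ℕ} (v w : Matrix (Fin l) (Fin k) BB) :
    sgm v w * (sgm v w)ᴴ = sgm (v * vᴴ) (w * wᴴ) := by
  ext i j
  simp only [Matrix.mul_apply, sgm, conjTranspose_apply, sg_sum, sg_mul, sg_star]

theorem norm_le_one_of_star_mul {a : BB} (h : IsStarProjection (star a * a)) : ‖a‖ ≤ 1 := by
  have h1 : ‖star a * a‖ ≤ 1 := IsStarProjection.norm_le _ h
  have h2 : ‖star a * a‖ = ‖a‖ * ‖a‖ := CStarRing.norm_star_mul_self
  nlinarith [norm_nonneg a]

theorem norm_conj_le {a : BB} (h : ‖a‖ ≤ 1) (i j : ℕ) : ‖star (isoT i) * a * isoT j‖ ≤ 1 := by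
  have h1 := norm_isoT_le i
  have h2 := norm_isoT_le j
  have h3 : ‖star (isoT i)‖ = ‖isoT i‖ := by
    rw [ContinuousLinearMap.star_eq_adjoint]
    exact LinearIsometryEquiv.norm_map ContinuousLinearMap.adjoint (isoT i)
  calc ‖star (isoT i) * a * isoT j‖ ≤ ‖star (isoT i)‖ * ‖a‖ * ‖isoT j‖ :=
        (norm_mul_le _ _).trans (by gcongr; exact norm_mul_le _ _)
    _ ≤ 1 * 1 * 1 := by rw [h3]; gcongr
    _ = 1 := by norm_num

/-- Pointwise Murray–von Neumann equivalence from equality of ranks. -/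
theorem exists_unc {k l : ℕ} {P : Matrix (Fin k) (Fin k) BB} {Q : Matrix (Fin l) (Fin l) BB}
    (hP1 : P * P = P) (hP2 : Pᴴ = P) (hQ1 : Q * Q = Q) (hQ2 : Qᴴ = Q)
    (hcP : ∀ i j, Cpt (P i j)) (hcQ : ∀ i j, Cpt (Q i j)) (h : rkM P = rkM Q) :
    ∃ v : Matrix (Fin l) (Fin k) BB, vᴴ * v = P ∧ v * vᴴ = Q ∧ (∀ i j, Cpt (v i j)) ∧
      ∀ i j, ‖v i j‖ ≤ 1 := by
  have hk := isoFam_fin k
  have hl := isoFam_fin l
  have pP := isStarProjection_cmp hk hP1 hP2
  have pQ := isStarProjection_cmp hl hQ1 hQ2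
  have fP := (cmp_cpt (fun i : Fin k => isoT i) _ hcP).finRank pP
  have fQ := (cmp_cpt (fun i : Fin l => isoT i) _ hcQ).finRank pQ
  obtain ⟨w, hw1, hw2⟩ := mvn_of_rk_eq pP pQ fP fQ h
  have hQw := proj_mul_of_mul_star_self pQ hw2
  have hwP := mul_proj_of_star_mul_self pP hw1
  have hPw : cmp (fun i : Fin k => isoT i) (fun i : Fin k => isoT i) P * star w = star w := by
    have := congrArg star hwP
    simpa [pP.isSelfAdjoint.star_eq] using this
  refine ⟨unc (fun i : Fin l => isoT i) (fun i : Fin k => isoT i) w,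
    unc_star_mul hl hk hw1 hQw, ?_, ?_, ?_⟩
  · have h := unc_star_mul (T' := fun i : Fin k => isoT i) hk (T := fun i : Fin l => isoT i) hl
      (P := Q) (Q := P) (w := star w) (by rw [star_star, hw2]) hPw
    rw [unc_conjTranspose, star_star] at h
    rw [unc_conjTranspose]
    exact h
  · intro i j
    have hc : Cpt w := by
      rw [← hwP]
      exact (cmp_cpt (fun i : Fin k => isoT i) _ hcP).mul_left w
    exact (hc.mul_left _).mul_right _
  · intro i j
    exact norm_conj_le (norm_le_one_of_star_mul (by rw [hw1]; exact pP)) _ _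

section

variable {n k l : ℕ} {p : Matrix (Fin k) (Fin k) (AA n)} {q : Matrix (Fin l) (Fin l) (AA n)}

theorem rf_eq_of_mvn (hp1 : p * p = p) (hp2 : pᴴ = p) (hq1 : q * q = q) (hq2 : qᴴ = q)
    (v : Matrix (Fin l) (Fin k) (AA n)) (h1 : vᴴ * v = p) (h2 : v * vᴴ = q) (f : DD n) :
    rf p f = rf q f := by
  have hk := isoFam_fin k
  have hl := isoFam_fin l
  have pP := isStarProjection_cmp hk (evH_mul hp1 f) (evH_star hp2 f)
  have pQ := isStarProjection_cmp hl (evH_mul hq1 f) (evH_star hq2 f)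
  have fP := (cmp_cpt (fun i : Fin k => isoT i) (p.map (evH f)) (fun i j => evH_cpt f (p i j))).finRank pP
  have e1 : (v.map (evH f))ᴴ * v.map (evH f) = p.map (evH f) := by
    rw [← map_conjTranspose_nu, ← map_mul_nu, h1]
  have e2 : v.map (evH f) * (v.map (evH f))ᴴ = q.map (evH f) := by
    rw [← map_conjTranspose_nu, ← map_mul_nu, h2]
  have hm : MvN (cmp (fun i : Fin k => isoT i) (fun i : Fin k => isoT i) (p.map (evH f)))
      (cmp (fun i : Fin l => isoT i) (fun i : Fin l => isoT i) (q.map (evH f))) := by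
    refine ⟨cmp (fun i : Fin l => isoT i) (fun i : Fin k => isoT i) (v.map (evH f)), ?_, ?_⟩
    · rw [star_cmp, cmp_mul _ hl, e1]
    · rw [star_cmp, cmp_mul _ hk, e2]
  exact hm.rk_eq pP pQ fP

theorem exists_mvn_of_rf_eq (hp1 : p * p = p) (hp2 : pᴴ = p) (hq1 : q * q = q) (hq2 : qᴴ = q)
    (h : ∀ f, rf p f = rf q f) :
    ∃ v : Matrix (Fin l) (Fin k) (AA n), vᴴ * v = p ∧ v * vᴴ = q := by
  have H1 : ∀ f : DD n, ∃ v : Matrix (Fin l) (Fin k) BB, vᴴ * v = p.map (evH f) ∧
      v * vᴴ = q.map (evH f) ∧ (∀ i j, Cpt (v i j)) ∧ ∀ i j, ‖v i j‖ ≤ 1 := fun f =>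
    exists_unc (evH_mul hp1 f) (evH_star hp2 f) (evH_mul hq1 f) (evH_star hq2 f)
      (fun i j => evH_cpt f (p i j)) (fun i j => evH_cpt f (q i j)) (h f)
  choose v hv1 hv2 hv3 hv4 using H1
  have E0 : ∀ {k : ℕ} (p : Matrix (Fin k) (Fin k) (AA n)) (f g : DD n),
      (p.map (evC f g)).map (fun F => F 0) = (p.map (evH (f + g))).map em := by
    intro k p f g
    ext1 i j
    simp only [Matrix.map_apply, evC_zero]
  have E1 : ∀ {k : ℕ} (p : Matrix (Fin k) (Fin k) (AA n)) (f g : DD n),
      (p.map (evC f g)).map (fun F => F 1) = sgm (p.map (evH f)) (p.map (evH g)) := by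
    intro k p f g
    ext1 i j
    simp only [Matrix.map_apply, evC_one, sgm]
  have H2 : ∀ f g : DD n, ∃ V : Matrix (Fin l) (Fin k) C(I, BB),
      Vᴴ * V = p.map (evC f g) ∧ V * Vᴴ = q.map (evC f g) ∧
      (∀ i j, V i j 0 = em (v (f + g) i j)) ∧ (∀ i j, V i j 1 = sg (v f i j) (v g i j)) ∧
      ∀ i j, ‖V i j‖ ≤ 1 := by
    intro f g
    have hcorner : CornerConn (cmp (fun i : Fin k => isoT i) (fun i : Fin k => isoT i)
        ((p.map (evC f g)).map (fun F => F 0))) := by
      have hmul : ((p.map (evC f g)).map (fun F => F 0)) * ((p.map (evC f g)).map (fun F => F 0))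
          = (p.map (evC f g)).map (fun F => F 0) := by
        have h1 := em_matrix (v (f + g))
        rw [E0, ← hv1 (f + g), ← em_matrix]
        have h3 := evH_mul hp1 (f + g)
        rw [← hv1 (f + g)] at h3
        rw [h1]
        ext1 i j
        have h4 := congrFun (congrFun h3 i) j
        rw [Matrix.mul_apply] at h4
        rw [Matrix.mul_apply, Matrix.map_apply, ← h4, em_sum]
        simp only [Matrix.map_apply, em_mul]
      have hst : ((p.map (evC f g)).map (fun F => F 0))ᴴ = (p.map (evC f g)).map (fun F => F 0) := by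
        rw [E0]
        ext1 i j
        have h5 : star (evH (f + g) (p j i)) = evH (f + g) (p i j) :=
          congrFun (congrFun (evH_star hp2 (f + g)) i) j
        show star (em (evH (f + g) (p j i))) = em (evH (f + g) (p i j))
        rw [← em_star, h5]
      have pP := isStarProjection_cmp (isoFam_fin k) hmul hst
      apply cornerConn_of_finRank pP
      refine (cmp_cpt _ _ fun i j => ?_).finRank pP
      rw [E0]
      exact em_cpt (evH_cpt (f + g) (p i j))
    obtain ⟨V, hV1, hV2, hV3, hV4, w, hw1, hw2⟩ := exists_path_matrix isoT_star_mul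
      (p.map (evC f g)) (q.map (evC f g)) (evC_mul hp1 f g) (evC_star hp2 f g) (evC_mul hq1 f g)
      (evC_star hq2 f g) hcorner ((v (f + g)).map em) (sgm (v f) (v g))
      (by rw [em_matrix, hv1, E0]) (by rw [em_matrix', hv2, E0])
      (by rw [sg_matrix, hv1, hv1, E1]) (by rw [sg_matrix', hv2, hv2, E1])
    refine ⟨V, hV1, hV2, hV3, hV4, fun i j => ?_⟩
    rw [ContinuousMap.norm_le _ zero_le_one]
    intro t
    rw [hw2]
    exact norm_conj_le (norm_le_one_of_star_mul (hw1 t)) _ _
  choose V hV1 hV2 hV3 hV4 hV5 using H2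
  have H3 : ∀ (i : Fin l) (j : Fin k), ∃ x : AA n, (∀ f, evH f x = v f i j) ∧
      ∀ f g, evC f g x = V f g i j := fun i j =>
    exists_AA (fun f => v f i j) (fun f g => V f g i j) ⟨1, fun f => hv4 f i j⟩
      ⟨1, fun f g => hV5 f g i j⟩ (fun f => hv3 f i j) (fun f g => hV3 f g i j)
      (fun f g => hV4 f g i j)
  choose x hx1 hx2 using H3
  have ex1 : ∀ f, (Matrix.of x).map (evH f) = v f := by
    intro f; ext1 i j; exact hx1 i j f
  have ex2 : ∀ f g, (Matrix.of x).map (evC f g) = V f g := by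
    intro f g; ext1 i j; exact hx2 i j f g
  refine ⟨Matrix.of x, ?_, ?_⟩
  · ext1 i j
    apply AA_ext
    · intro f
      have h1 := map_mul_nu (evH f) ((Matrix.of x)ᴴ) (Matrix.of x)
      rw [map_conjTranspose_nu, ex1, hv1] at h1
      exact congrFun (congrFun h1 i) j
    · intro f g
      have h1 := map_mul_nu (evC f g) ((Matrix.of x)ᴴ) (Matrix.of x)
      have h2 := map_conjTranspose_nu (evC f g) (Matrix.of x)
      rw [ex2] at h2
      rw [ex2, h2] at h1
      have h3 := h1.trans (hV1 f g)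
      exact congrFun (congrFun h3 i) j
  · ext1 i j
    apply AA_ext
    · intro f
      have h1 := map_mul_nu (evH f) (Matrix.of x) ((Matrix.of x)ᴴ)
      rw [map_conjTranspose_nu, ex1, hv2] at h1
      exact congrFun (congrFun h1 i) j
    · intro f g
      have h1 := map_mul_nu (evC f g) (Matrix.of x) ((Matrix.of x)ᴴ)
      have h2 := map_conjTranspose_nu (evC f g) (Matrix.of x)
      rw [ex2] at h2
      rw [ex2, h2] at h1
      have h3 := h1.trans (hV2 f g)
      exact congrFun (congrFun h3 i) j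

end

end Pool.Agent.CStarLift
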