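import Mathlib
import Pool.Agent.CStarLift.Main

set_option autoImplicit false

namespace Pool.Agent.CStarLift

open unitInterval Module Matrix
open scoped ENNReal

/-! ### ranks of block sums -/

theorem rkM_block {k l : ℕ} {M : Matrix (Fin k) (Fin k) BB} {N : Matrix (Fin l) (Fin l) BB}
    (hM1 : M * M = M) (hM2 : Mᴴ = M) (hN1 : N * N = N) (hN2 : Nᴴ = N)
    (hcM : ∀ i j, Cpt (M i j)) (hcN : ∀ i j, Cpt (N i j)) :
    rkM (Matrix.reindex finSumFinEquiv finSumFinEquiv (Matrix.fromBlocks M 0 0 N)) =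
      rkM M + rkM N := by
  have hk := isoFam_fin k
  have hl := isoFam_fin l
  have hl' : IsoFam (fun j : Fin l => isoT (k + j)) := by
    intro i j
    simp only [isoT_star_mul, Nat.add_left_cancel_iff, Fin.val_inj]
  have e : cmp (fun i : Fin (k + l) => isoT i) (fun i : Fin (k + l) => isoT i)
      (Matrix.reindex finSumFinEquiv finSumFinEquiv (Matrix.fromBlocks M 0 0 N)) =
      cmp (fun i : Fin k => isoT i) (fun i : Fin k => isoT i) M +
      cmp (fun j : Fin l => isoT (k + j)) (fun j : Fin l => isoT (k + j)) N := by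
    unfold cmp
    rw [Fin.sum_univ_add]
    congr 1
    · refine Finset.sum_congr rfl fun i _ => ?_
      rw [Fin.sum_univ_add]
      simp
    · refine Finset.sum_congr rfl fun i _ => ?_
      rw [Fin.sum_univ_add]
      simp
  have pM := isStarProjection_cmp hk hM1 hM2
  have pN := isStarProjection_cmp hl' hN1 hN2
  have fM := (cmp_cpt (fun i : Fin k => isoT i) M hcM).finRank pM
  have fN := (cmp_cpt (fun j : Fin l => isoT (k + j)) N hcN).finRank pN
  unfold rkM
  rw [e, rk_add pM pN fM fN, rk_cmp_eq hl' hl hN1 hN2 hcN]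
  apply cmp_mul_cmp_eq_zero
  intro i j
  apply iso_ne
  have := i.2
  omega

/-! ### surjectivity -/

theorem em_proj {E : BB} (h : IsStarProjection E) : IsStarProjection (em E) :=
  ⟨by rw [IsIdempotentElem, ← em_mul, h.isIdempotentElem.eq],
   by rw [IsSelfAdjoint, ← em_star, h.isSelfAdjoint.star_eq]⟩

theorem sg_proj {E E' : BB} (h : IsStarProjection E) (h' : IsStarProjection E') :
    IsStarProjection (sg E E') :=
  ⟨by rw [IsIdempotentElem, ← sg_mul, h.isIdempotentElem.eq, h'.isIdempotentElem.eq],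
   by rw [IsSelfAdjoint, ← sg_star, h.isSelfAdjoint.star_eq, h'.isSelfAdjoint.star_eq]⟩

theorem conj_mvn {E : BB} (h : IsStarProjection E) (i : ℕ) :
    MvN E (isoT i * E * star (isoT i)) := by
  have hE : E * E = E := h.isIdempotentElem.eq
  have hs : star E = E := h.isSelfAdjoint.star_eq
  refine ⟨isoT i * E, ?_, ?_⟩
  · calc star (isoT i * E) * (isoT i * E) = E * (star (isoT i) * isoT i) * E := by
          rw [star_mul, hs]; noncomm_ring
      _ = E := by rw [iso_self, mul_one, hE]
  · calc isoT i * E * star (isoT i * E) = isoT i * (E * E) * star (isoT i) := by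
          rw [star_mul, hs]; noncomm_ring
      _ = _ := by rw [hE]

theorem conj_proj {E : BB} (h : IsStarProjection E) (i : ℕ) :
    IsStarProjection (isoT i * E * star (isoT i)) := by
  have hE : E * E = E := h.isIdempotentElem.eq
  have hs : star E = E := h.isSelfAdjoint.star_eq
  constructor
  · calc isoT i * E * star (isoT i) * (isoT i * E * star (isoT i))
        = isoT i * E * (star (isoT i) * isoT i) * E * star (isoT i) := by noncomm_ring
      _ = isoT i * (E * E) * star (isoT i) := by rw [iso_self]; noncomm_ring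
      _ = _ := by rw [hE]
  · rw [IsSelfAdjoint, star_mul, star_mul, star_star, hs, mul_assoc]

theorem conj_rk {E : BB} (h : IsStarProjection E) (hf : FinRank E) (i : ℕ) :
    rk (isoT i * E * star (isoT i)) = rk E :=
  ((conj_mvn h i).rk_eq h (conj_proj h i) hf).symm

theorem conj_fin {E : BB} (hf : FinRank E) (i : ℕ) : FinRank (isoT i * E * star (isoT i)) :=
  (hf.mul_left _).mul_right _

theorem em_rk {E : BB} (h : IsStarProjection E) (hf : FinRank E) : rk (em E) = rk E := by
  unfold em; exact conj_rk h hf 2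

theorem em_fin {E : BB} (hf : FinRank E) : FinRank (em E) := by
  unfold em; exact conj_fin hf 2

theorem sg_fin {E E' : BB} (hf : FinRank E) (hf' : FinRank E') : FinRank (sg E E') := by
  unfold sg; exact (conj_fin hf 0).add (conj_fin hf' 1)

theorem sg_rk {E E' : BB} (h : IsStarProjection E) (h' : IsStarProjection E')
    (hf : FinRank E) (hf' : FinRank E') : rk (sg E E') = rk E + rk E' := by
  unfold sg
  rw [rk_add (conj_proj h 0) (conj_proj h' 1) (conj_fin hf 0) (conj_fin hf' 1), conj_rk h hf,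
    conj_rk h' hf']
  calc isoT 0 * E * star (isoT 0) * (isoT 1 * E' * star (isoT 1))
      = isoT 0 * E * (star (isoT 0) * isoT 1) * E' * star (isoT 1) := by noncomm_ring
    _ = 0 := by rw [iso_ne (by norm_num)]; simp

theorem em_mul_sg (E E' E'' : BB) : em E * sg E' E'' = 0 := by
  unfold em sg
  calc isoT 2 * E * star (isoT 2) * (isoT 0 * E' * star (isoT 0) + isoT 1 * E'' * star (isoT 1))
      = isoT 2 * E * (star (isoT 2) * isoT 0) * E' * star (isoT 0) +
        isoT 2 * E * (star (isoT 2) * isoT 1) * E'' * star (isoT 1) := by noncomm_ring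
    _ = 0 := by rw [iso_ne (by norm_num), iso_ne (by norm_num)]; simp

theorem exists_of_vector {n : ℕ} (x : Fin n → ℕ) : ∃ a : AA n, a * a = a ∧ star a = a ∧
    ∀ f : DD n, rk (evH f a) = f x ∧ IsStarProjection (evH f a) ∧ FinRank (evH f a) := by
  choose E hE1 hE2 hE3 using exists_proj_rk
  have H : ∀ f g : DD n, ∃ R : C(I, BB), (∀ t, IsStarProjection (R t)) ∧
      R 0 = em (E ((f + g) x)) ∧ R 1 = sg (E (f x)) (E (g x)) := by
    intro f g
    have h1 := em_proj (hE1 ((f + g) x))
    have h2 := sg_proj (hE1 (f x)) (hE1 (g x))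
    have hr : rk (em (E ((f + g) x))) = rk (sg (E (f x)) (E (g x))) := by
      rw [em_rk (hE1 _) (hE2 _), sg_rk (hE1 _) (hE1 _) (hE2 _) (hE2 _), hE3, hE3, hE3]
      rfl
    obtain ⟨w, hw1, hw2⟩ := mvn_of_rk_eq h1 h2 (em_fin (hE2 _)) (sg_fin (hE2 _) (hE2 _)) hr
    exact exists_path_of_orthogonal h1 h2 (em_mul_sg _ _ _) hw1 hw2
  choose R hR1 hR2 hR3 using H
  obtain ⟨a, ha1, ha2⟩ := exists_AA (fun f : DD n => E (f x)) R
    ⟨1, fun f => IsStarProjection.norm_le _ (hE1 _)⟩
    ⟨1, fun f g => by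
      rw [ContinuousMap.norm_le _ zero_le_one]
      intro t; exact IsStarProjection.norm_le _ (hR1 f g t)⟩
    (fun f => (hE2 _).cpt (hE1 _)) hR2 hR3
  refine ⟨a, ?_, ?_, fun f => ?_⟩
  · apply AA_ext
    · intro f
      rw [map_mul, ha1]; exact (hE1 _).isIdempotentElem.eq
    · intro f g
      rw [map_mul, ha2]
      ext1 t
      exact (hR1 f g t).isIdempotentElem.eq
  · apply AA_ext
    · intro f
      rw [map_star, ha1]; exact (hE1 _).isSelfAdjoint.star_eq
    · intro f g
      rw [map_star, ha2]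
      ext1 t
      exact (hR1 f g t).isSelfAdjoint.star_eq
  · rw [ha1]
    exact ⟨hE3 _, hE1 _, hE2 _⟩

/-! ### the three facts used in the main theorem -/

theorem rf_block {n k l : ℕ} {p : Matrix (Fin k) (Fin k) (AA n)} {q : Matrix (Fin l) (Fin l) (AA n)}
    (hp1 : p * p = p) (hp2 : pᴴ = p) (hq1 : q * q = q) (hq2 : qᴴ = q) (f : DD n) :
    rf (Matrix.reindex finSumFinEquiv finSumFinEquiv (Matrix.fromBlocks p 0 0 q)) f =
      rf p f + rf q f := by
  have e : (Matrix.reindex finSumFinEquiv finSumFinEquiv (Matrix.fromBlocks p 0 0 q)).map (evH f) =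
      Matrix.reindex finSumFinEquiv finSumFinEquiv
        (Matrix.fromBlocks (p.map (evH f)) 0 0 (q.map (evH f))) := by
    ext1 i j
    obtain ⟨i, rfl⟩ := finSumFinEquiv.surjective i
    obtain ⟨j, rfl⟩ := finSumFinEquiv.surjective j
    rcases i with i | i <;> rcases j with j | j <;> simp
  unfold rf
  rw [e]
  exact rkM_block (evH_mul hp1 f) (evH_star hp2 f) (evH_mul hq1 f) (evH_star hq2 f)
    (fun i j => evH_cpt f (p i j)) (fun i j => evH_cpt f (q i j))

theorem rf_single {n : ℕ} {x : Fin n → ℕ} {a : AA n} (_ : a * a = a) (_ : star a = a)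
    (h : ∀ f : DD n, rk (evH f a) = f x ∧ IsStarProjection (evH f a) ∧ FinRank (evH f a))
    (f : DD n) : rf (Matrix.of (fun _ _ => a) : Matrix (Fin 1) (Fin 1) (AA n)) f = f x := by
  obtain ⟨h1, h2, h3⟩ := h f
  unfold rf rkM cmp
  simp only [Finset.univ_unique, Fin.default_eq_zero, Finset.sum_singleton, Matrix.map_apply,
    Matrix.of_apply]
  rw [← h1]
  exact conj_rk h2 h3 _

theorem rf_push {m n k : ℕ} {p : Matrix (Fin k) (Fin k) (AA m)} (hp1 : p * p = p) (hp2 : pᴴ = p)
    (α : (Fin m → ℕ) →+ (Fin n → ℕ)) (i : Fin n) :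
    rf (p.map (fun x => FF m n α x)) (cf i) = α (fun j => rf p (cf j)) i := by
  have e : (p.map (fun x => FF m n α x)).map (evH (cf i)) = p.map (evH ((cf i).comp α)) := by
    ext1 a b
    simp only [Matrix.map_apply]
    exact evH_FF α (p a b) (cf i)
  have h := rf_eq hp1 hp2 ((cf i).comp α)
  unfold rf at h ⊢
  rw [e, h]
  rfl

end Pool.Agent.CStarLift
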